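import Pool.Agent.LibTy70.T03
import Pool.Agent.LibQGr.R_LLN
import Pool.Agent.LibQGr.R_HRT

/-! Mixing quantum graphs: objects. -/

open MeasureTheory Set Filter Topology

namespace Mx

open QGr Ty

/-- The probability that two independent walkers, which start at the channels `x` and `y` of the
layer `j` and move from the channel `x` of a layer `i` to the channel `u` of the layer `i + 1` with
probability `(O i) u x ^ 2`, are at different channels at each of the layers `j, ..., j + w`. -/
noncomputable def nomeet {N : ℕ} (O : ℕ → Orth N) : ℕ → ℕ → Fin N → Fin N → ℝ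
  | 0, _, x, y => if x = y then 0 else 1
  | w + 1, j, x, y => if x = y then 0 else
      ∑ u, ∑ v, (O j).1 u x ^ 2 * (O j).1 v y ^ 2 * nomeet O w (j + 1) u v

/-- Any two independent walkers meet within `w` layers with probability at least one half. -/
def Meets {N : ℕ} (m w : ℕ) (O : ℕ → Orth N) : Prop :=
  ∀ j, j + w ≤ m → ∀ x y, nomeet O w j x y ≤ 1 / 2

/-- The vertex matrix of a layer of the brick wall: the channels `x` and `x + 1` with `x + j` even
are coupled by the matrix `[1, 1; 1, -1] / √2`; a channel without a neighbour is not coupled. -/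
noncomputable def brick (N j : ℕ) : Matrix (Fin N) (Fin N) ℝ := Matrix.of fun x y =>
  if (x.1 + 1 = y.1 ∧ Even (x.1 + j)) ∨ (y.1 + 1 = x.1 ∧ Even (y.1 + j)) then 1 / √2
  else if x = y then
    (if Even (x.1 + j) then (if x.1 + 1 < N then 1 / √2 else 1)
      else (if x.1 = 0 then 1 else -(1 / √2)))
  else 0

/-- The operator of two killed walkers. -/
noncomputable def KO {N : ℕ} (O : Orth N) (S : Fin N → Fin N → ℝ) (x y : Fin N) : ℝ :=
  if x = y then 0 else ∑ u, ∑ v, O.1 u x ^ 2 * O.1 v y ^ 2 * S u v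

/-- Its products. -/
noncomputable def nm {N : ℕ} (O : ℕ → Orth N) (S : Fin N → Fin N → ℝ) :
    ℕ → ℕ → Fin N → Fin N → ℝ
  | 0, _ => S
  | w + 1, j => KO (O j) (nm O S w (j + 1))

/-- The expectation of `ψ` at the layer `j + r` for a walker which starts in the layer `j`. -/
noncomputable def bk {N : ℕ} (O : ℕ → Orth N) : ℕ → ℕ → (Fin N → ℝ) → Fin N → ℝ
  | 0, _, ψ => ψ
  | r + 1, j, ψ => LLN_stp (O j) (bk O r (j + 1) ψ)

/-- Averaging over the phases of one layer, followed by one vertex. -/
noncomputable def UV {N : ℕ} (O : Orth N) (g : Uni N → ℝ) (A : Uni N) : ℝ :=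
  ∫ t : Tor N, g (cx O * dg t * A)

/-- Its products. -/
noncomputable def GG {N : ℕ} (O : ℕ → Orth N) (g : Uni N → ℝ) : ℕ → ℕ → Uni N → ℝ
  | 0, _ => g
  | w + 1, j => UV (O j) (GG O g w (j + 1))

/-- The matrix `X` without its diagonal. -/
noncomputable def offd {N : ℕ} (X : Mat N) : Mat N := Matrix.of fun x y => if x = y then 0 else X x y

/-- The quadratic form with the weights `S`. -/
noncomputable def QS {N : ℕ} (S : Fin N → Fin N → ℝ) (X : Mat N) : ℝ :=
  ∑ x, ∑ y, S x y * ‖X x y‖ ^ 2

/-- `g` is Lipschitz for the infinitesimal metric `QS S`, up to terms of the second order. -/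
def Inf {N : ℕ} (g : Uni N → ℝ) (S : Fin N → Fin N → ℝ) : Prop :=
  ∀ c : ℝ, ∃ K : ℝ, ∀ (X : Mat N) (h : ℝ) (Z A : Uni N), X.conjTranspose = X → fro X ≤ c →
    0 ≤ h → h ≤ 1 → fro (Z.1 - (1 + ((h : ℂ) * Complex.I) • X)) ≤ c * h ^ 2 →
    |g (Z * A) - g A| ≤ h * √(QS S X) + K * h ^ 2

end Mx
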