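import Pool.Agent.LibMx40.Defs

/-! Row M01: two walkers. -/

open MeasureTheory Set Filter Topology

namespace Mx

open QGr Ty

theorem nm_eq {N : ℕ} (O : ℕ → Orth N) (w j : ℕ) :
    nomeet O w j = nm O (fun x y => if x = y then 0 else 1) w j := by
  induction w generalizing j with
  | zero =>
    funext x y
    rw [nomeet, nm]
  | succ w ih =>
    funext x y
    rw [nomeet, nm, ← ih (j + 1), KO]

theorem nm_snoc {N : ℕ} (O : ℕ → Orth N) (S : Fin N → Fin N → ℝ) (w j : ℕ) :
    nm O S (w + 1) j = nm O (KO (O (j + w)) S) w j := by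
  induction w generalizing j with
  | zero => rw [nm, nm, nm, add_zero]
  | succ w ih =>
    rw [nm, ih (j + 1), nm, add_assoc, add_comm 1 w]

theorem M01_succ {N : ℕ} (O : ℕ → Orth N) (w j : ℕ) (x y : Fin N) (h : ¬x = y) :
    nomeet O (w + 1) j x y =
      ∑ u, ∑ v, (O j).1 u x ^ 2 * (O j).1 v y ^ 2 * nomeet O w (j + 1) u v := by
  rw [nomeet, if_neg h]

theorem M01_diag {N : ℕ} (O : ℕ → Orth N) (w j : ℕ) (x : Fin N) : nomeet O w j x x = 0 := by
  cases w with
  | zero => rw [nomeet, if_pos rfl]
  | succ w => rw [nomeet, if_pos rfl]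

theorem nomeet_bd {N : ℕ} (O : ℕ → Orth N) (w j : ℕ) (x y : Fin N) :
    0 ≤ nomeet O w j x y ∧ nomeet O w j x y ≤ 1 := by
  induction w generalizing j x y with
  | zero =>
    rw [nomeet]
    split_ifs <;> norm_num
  | succ w ih =>
    rw [nomeet]
    split_ifs
    · norm_num
    · constructor
      · exact Finset.sum_nonneg fun u _ => Finset.sum_nonneg fun v _ =>
          mul_nonneg (mul_nonneg (sq_nonneg _) (sq_nonneg _)) (ih (j + 1) u v).1
      · calc ∑ u, ∑ v, (O j).1 u x ^ 2 * (O j).1 v y ^ 2 * nomeet O w (j + 1) u v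
            ≤ ∑ u, ∑ v, (O j).1 u x ^ 2 * (O j).1 v y ^ 2 :=
              Finset.sum_le_sum fun u _ => Finset.sum_le_sum fun v _ =>
                mul_le_of_le_one_right (mul_nonneg (sq_nonneg _) (sq_nonneg _)) (ih (j + 1) u v).2
          _ = 1 := by
              rw [← Finset.sum_mul_sum, LLN_col, LLN_col, one_mul]

theorem M01_step {N : ℕ} (O : ℕ → Orth N) (w j : ℕ) (x y : Fin N) :
    nomeet O (w + 1) j x y ≤ nomeet O w j x y := by
  induction w generalizing j x y with
  | zero =>
    by_cases h : x = y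
    · subst h
      rw [M01_diag, M01_diag]
    · rw [nomeet.eq_1, if_neg h]
      exact (nomeet_bd O _ _ _ _).2
  | succ w ih =>
    by_cases h : x = y
    · subst h
      rw [M01_diag, M01_diag]
    · rw [M01_succ O (w + 1) j x y h, M01_succ O w j x y h]
      exact Finset.sum_le_sum fun u _ => Finset.sum_le_sum fun v _ =>
        mul_le_mul_of_nonneg_left (ih (j + 1) u v) (mul_nonneg (sq_nonneg _) (sq_nonneg _))

theorem nomeet_anti {N : ℕ} (O : ℕ → Orth N) (w w' j : ℕ) (h : w ≤ w') (x y : Fin N) :
    nomeet O w' j x y ≤ nomeet O w j x y := by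
  induction w', h using Nat.le_induction with
  | base => exact le_rfl
  | succ n _ ih => exact (M01_step O n j x y).trans ih

theorem nomeet_add {N : ℕ} (O : ℕ → Orth N) (s t j : ℕ) (ρ : ℝ) (hρ : 0 ≤ ρ)
    (h : ∀ x y, nomeet O t (j + s) x y ≤ ρ) (x y : Fin N) :
    nomeet O (s + t) j x y ≤ ρ * nomeet O s j x y := by
  induction s generalizing j x y with
  | zero =>
    by_cases hxy : x = y
    · subst hxy
      rw [M01_diag, M01_diag, mul_zero]
    · rw [nomeet.eq_1, if_neg hxy, mul_one, zero_add]
      exact h x y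
  | succ s ih =>
    by_cases hxy : x = y
    · subst hxy
      rw [M01_diag, M01_diag, mul_zero]
    · have e : s + 1 + t = (s + t) + 1 := by omega
      rw [e, M01_succ O (s + t) j x y hxy, M01_succ O s j x y hxy, Finset.mul_sum]
      refine Finset.sum_le_sum fun u _ => ?_
      rw [Finset.mul_sum]
      refine Finset.sum_le_sum fun v _ => ?_
      have h1 := ih (j + 1) (fun x y => by
        have := h x y
        rwa [show j + (s + 1) = j + 1 + s by omega] at this) u v
      have h2 : 0 ≤ (O j).1 u x ^ 2 * (O j).1 v y ^ 2 := mul_nonneg (sq_nonneg _) (sq_nonneg _)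
      calc (O j).1 u x ^ 2 * (O j).1 v y ^ 2 * nomeet O (s + t) (j + 1) u v
          ≤ (O j).1 u x ^ 2 * (O j).1 v y ^ 2 * (ρ * nomeet O s (j + 1) u v) :=
            mul_le_mul_of_nonneg_left h1 h2
        _ = ρ * ((O j).1 u x ^ 2 * (O j).1 v y ^ 2 * nomeet O s (j + 1) u v) := by ring

theorem nomeet_pow {N : ℕ} (O : ℕ → Orth N) (m w : ℕ) (hw : 1 ≤ w) (hO : Meets m w O) (n j : ℕ)
    (hn : j + n ≤ m) (x y : Fin N) : nomeet O n j x y ≤ (1 / 2 : ℝ) ^ (n / w) := by
  induction n using Nat.strong_induction_on with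
  | _ n ih =>
    by_cases h : n < w
    · rw [Nat.div_eq_of_lt h, pow_zero]
      exact (nomeet_bd O _ _ _ _).2
    · push Not at h
      have h1 := ih (n - w) (by omega) (by omega)
      have h2 := nomeet_add O (n - w) w j (1 / 2) (by norm_num)
        (fun x y => hO (j + (n - w)) (by omega) x y) x y
      rw [Nat.sub_add_cancel h] at h2
      have h3 : n / w = (n - w) / w + 1 := by
        conv_lhs => rw [← Nat.sub_add_cancel h]
        rw [Nat.add_div_right _ (by omega)]
      rw [h3, pow_succ]
      linarith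

/-- The operator `nm` for a constant multiple of the killed constant. -/
theorem nm_const {N : ℕ} (O : ℕ → Orth N) (a : ℝ) (w j : ℕ) (x y : Fin N) :
    nm O (fun x y => if x = y then 0 else a) w j x y = a * nomeet O w j x y := by
  induction w generalizing j x y with
  | zero =>
    rw [nm, nomeet]
    split_ifs <;> simp
  | succ w ih =>
    rw [nm, KO, nomeet]
    split_ifs
    · simp
    · rw [Finset.mul_sum]
      refine Finset.sum_congr rfl fun u _ => ?_
      rw [Finset.mul_sum]
      refine Finset.sum_congr rfl fun v _ => ?_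
      rw [ih (j + 1) u v]
      ring

end Mx
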