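import Pool.Agent.LibMx40.M01

/-! Row M02: the variation of the expectations, and the law of large numbers.
`bk_osc`: induction on `r`; for `x ≠ y`,
`bk (r+1) j ψ x - bk (r+1) j ψ y = ∑ u, ∑ v, O u x ^ 2 O v y ^ 2 (bk r (j+1) ψ u - bk r (j+1) ψ v)` (LLN_col).
`geo_sum`: blocks of length `w`.
`H_bound`: induction on `m` with `LLN_H O (m+1) l ψ = ∑ l_last ψ + LLN_H O m _ (LLN_stp (O m) ψ)` and
`LLN_stp (O m) (bk O r (m+1) ψ) = bk O (r+1) m ψ` (definition); `|∑ x, l x * ψ x| = |∑ x, l x * (ψ x - ψ x₀)| ≤ N M osc`.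
`lln_mix`: induction on `m` with `LLN_rec`, `geo_sum`, `ω = 2 M`; the case `m = 0` is `fro (diagonal l)^2 = ∑ l^2 ≤ N M^2`. -/

open MeasureTheory Set Filter Topology

namespace Mx

open QGr Ty

theorem M02_bk_succ {N : ℕ} (O : ℕ → Orth N) (r j : ℕ) (ψ : Fin N → ℝ) :
    bk O (r + 1) j ψ = LLN_stp (O j) (bk O r (j + 1) ψ) := rfl

theorem bk_osc {N : ℕ} (O : ℕ → Orth N) (ψ : Fin N → ℝ) (ω : ℝ) (hω : 0 ≤ ω)
    (h : ∀ x y, |ψ x - ψ y| ≤ ω) (r j : ℕ) (x y : Fin N) :
    |bk O r j ψ x - bk O r j ψ y| ≤ ω * nomeet O r j x y := by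
  induction r generalizing j x y with
  | zero =>
    rw [nomeet]
    split_ifs with hxy
    · subst hxy
      simp
    · rw [mul_one]
      exact h x y
  | succ r ih =>
    by_cases hxy : x = y
    · subst hxy
      rw [sub_self, abs_zero]
      exact mul_nonneg hω (nomeet_bd O _ _ _ _).1
    · rw [nomeet, if_neg hxy, M02_bk_succ]
      set B := bk O r (j + 1) ψ with hB
      have e : LLN_stp (O j) B x - LLN_stp (O j) B y =
          ∑ u, ∑ v, (O j).1 u x ^ 2 * (O j).1 v y ^ 2 * (B u - B v) := by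
        have e1 : LLN_stp (O j) B x = ∑ u, ∑ v, (O j).1 u x ^ 2 * (O j).1 v y ^ 2 * B u := by
          unfold LLN_stp
          refine Finset.sum_congr rfl fun u _ => ?_
          have : ∀ v, (O j).1 u x ^ 2 * (O j).1 v y ^ 2 * B u =
              ((O j).1 u x ^ 2 * B u) * (O j).1 v y ^ 2 := fun v => by ring
          simp only [this]
          rw [← Finset.mul_sum, LLN_col, mul_one]
        have e2 : LLN_stp (O j) B y = ∑ u, ∑ v, (O j).1 u x ^ 2 * (O j).1 v y ^ 2 * B v := by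
          rw [Finset.sum_comm]
          unfold LLN_stp
          refine Finset.sum_congr rfl fun v _ => ?_
          have : ∀ u, (O j).1 u x ^ 2 * (O j).1 v y ^ 2 * B v =
              ((O j).1 v y ^ 2 * B v) * (O j).1 u x ^ 2 := fun v => by ring
          simp only [this]
          rw [← Finset.mul_sum, LLN_col, mul_one]
        rw [e1, e2, ← Finset.sum_sub_distrib]
        refine Finset.sum_congr rfl fun u _ => ?_
        rw [← Finset.sum_sub_distrib]
        exact Finset.sum_congr rfl fun v _ => by ring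
      rw [e]
      refine (Finset.abs_sum_le_sum_abs _ _).trans ?_
      rw [Finset.mul_sum]
      refine Finset.sum_le_sum fun u _ => ?_
      refine (Finset.abs_sum_le_sum_abs _ _).trans ?_
      rw [Finset.mul_sum]
      refine Finset.sum_le_sum fun v _ => ?_
      have h2 : 0 ≤ (O j).1 u x ^ 2 * (O j).1 v y ^ 2 := mul_nonneg (sq_nonneg _) (sq_nonneg _)
      rw [abs_mul, abs_of_nonneg h2]
      calc (O j).1 u x ^ 2 * (O j).1 v y ^ 2 * |B u - B v|
          ≤ (O j).1 u x ^ 2 * (O j).1 v y ^ 2 * (ω * nomeet O r (j + 1) u v) :=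
            mul_le_mul_of_nonneg_left (ih (j + 1) u v) h2
        _ = ω * ((O j).1 u x ^ 2 * (O j).1 v y ^ 2 * nomeet O r (j + 1) u v) := by ring

theorem M02_block (w : ℕ) (hw : 1 ≤ w) (q : ℕ) :
    ∑ i ∈ Finset.range (w * q), (1 / 2 : ℝ) ^ (i / w) = 2 * w * (1 - (1 / 2 : ℝ) ^ q) := by
  induction q with
  | zero => simp
  | succ q ih =>
    rw [Nat.mul_succ, Finset.sum_range_add, ih]
    have h : ∀ i ∈ Finset.range w, (1 / 2 : ℝ) ^ ((w * q + i) / w) = (1 / 2 : ℝ) ^ q := by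
      intro i hi
      rw [Nat.mul_add_div (by omega), Nat.div_eq_of_lt (Finset.mem_range.1 hi), add_zero]
    rw [Finset.sum_congr rfl h, Finset.sum_const, Finset.card_range, nsmul_eq_mul, pow_succ]
    ring

theorem geo_sum (w : ℕ) (hw : 1 ≤ w) (n r : ℕ) :
    ∑ i ∈ Finset.range n, (1 / 2 : ℝ) ^ ((r + i) / w) ≤ 2 * w := by
  calc ∑ i ∈ Finset.range n, (1 / 2 : ℝ) ^ ((r + i) / w)
      ≤ ∑ i ∈ Finset.range n, (1 / 2 : ℝ) ^ (i / w) :=
        Finset.sum_le_sum fun i _ => pow_le_pow_of_le_one (by norm_num) (by norm_num)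
          (Nat.div_le_div_right (by omega))
    _ ≤ ∑ i ∈ Finset.range (w * n), (1 / 2 : ℝ) ^ (i / w) :=
        Finset.sum_le_sum_of_subset_of_nonneg
          (Finset.range_subset_range.2 (Nat.le_mul_of_pos_left n (by omega)))
          (fun i _ _ => by positivity)
    _ = 2 * w * (1 - (1 / 2 : ℝ) ^ n) := M02_block w hw n
    _ ≤ 2 * w := by
        have h1 : (0 : ℝ) ≤ (1 / 2 : ℝ) ^ n := by positivity
        have h2 : (0 : ℝ) ≤ 2 * (w : ℝ) := by positivity
        nlinarith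

theorem M02_osc {N : ℕ} (v φ : Fin N → ℝ) (M c : ℝ) (hM : 0 ≤ M) (hc : 0 ≤ c)
    (hv : ∀ i, |v i| ≤ M) (hs : ∑ i, v i = 0) (hφ : ∀ x y, |φ x - φ y| ≤ c) :
    |∑ x, v x * φ x| ≤ N * M * c := by
  rcases Nat.eq_zero_or_pos N with h0 | h0
  · subst h0
    simp
  · set x₀ : Fin N := ⟨0, h0⟩
    have e : ∑ x, v x * φ x = ∑ x, v x * (φ x - φ x₀) := by
      simp only [mul_sub, Finset.sum_sub_distrib]
      rw [← Finset.sum_mul, hs, zero_mul, sub_zero]
    rw [e]
    refine (Finset.abs_sum_le_sum_abs _ _).trans ?_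
    calc ∑ x, |v x * (φ x - φ x₀)| ≤ ∑ _x : Fin N, M * c :=
          Finset.sum_le_sum fun x _ => by
            rw [abs_mul]
            exact mul_le_mul (hv x) (hφ x x₀) (abs_nonneg _) hM
      _ = N * M * c := by
          rw [Finset.sum_const, Finset.card_univ, Fintype.card_fin, nsmul_eq_mul, mul_assoc]

theorem H_bound {N : ℕ} (O : ℕ → Orth N) (m' w : ℕ) (hw : 1 ≤ w) (hO : Meets m' w O)
    (ψ : Fin N → ℝ) (M ω : ℝ) (hM : 0 ≤ M) (hω : 0 ≤ ω) (h : ∀ x y, |ψ x - ψ y| ≤ ω) (m : ℕ) :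
    ∀ (r : ℕ) (l : Fin (m + 1) → Fin N → ℝ), m + r ≤ m' → (∀ j i, |l j i| ≤ M) →
      (∀ j, ∑ i, l j i = 0) →
      |LLN_H O m l (bk O r m ψ)| ≤
        N * M * ω * ∑ i ∈ Finset.range (m + 1), (1 / 2 : ℝ) ^ ((r + i) / w) := by
  have key : ∀ (r j : ℕ) (v : Fin N → ℝ), j + r ≤ m' → (∀ i, |v i| ≤ M) → ∑ i, v i = 0 →
      |∑ x, v x * bk O r j ψ x| ≤ N * M * (ω * (1 / 2 : ℝ) ^ (r / w)) := by
    intro r j v hj hv hs
    refine M02_osc v _ M _ hM (by positivity) hv hs (fun x y => ?_)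
    exact (bk_osc O ψ ω hω h r j x y).trans
      (mul_le_mul_of_nonneg_left (nomeet_pow O m' w hw hO r j hj x y) hω)
  induction m with
  | zero =>
    intro r l hr hl hs
    rw [LLN_H]
    have h1 := key r 0 (l 0) hr (hl 0) (hs 0)
    simp only [zero_add, Finset.range_one, Finset.sum_singleton, add_zero]
    rw [mul_assoc]
    exact h1
  | succ m ih =>
    intro r l hr hl hs
    rw [LLN_H]
    have h1 := key r (m + 1) (l (Fin.last (m + 1))) hr (hl _) (hs _)
    have h2 := ih (r + 1) (fun j => l j.castSucc) (by omega) (fun j i => hl _ _) (fun j => hs _)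
    rw [M02_bk_succ] at h2
    rw [Finset.sum_range_succ' _ (m + 1)]
    have h3 : ∑ i ∈ Finset.range (m + 1), (1 / 2 : ℝ) ^ ((r + (i + 1)) / w) =
        ∑ i ∈ Finset.range (m + 1), (1 / 2 : ℝ) ^ ((r + 1 + i) / w) :=
      Finset.sum_congr rfl fun i _ => by rw [show r + (i + 1) = r + 1 + i by omega]
    rw [h3, add_zero, mul_add]
    have h4 : (N : ℝ) * M * (ω * (1 / 2 : ℝ) ^ (r / w)) =
        N * M * ω * (1 / 2 : ℝ) ^ (r / w) := by ring
    calc _ ≤ _ := abs_add_le _ _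
      _ ≤ N * M * (ω * (1 / 2 : ℝ) ^ (r / w)) +
          N * M * ω * ∑ i ∈ Finset.range (m + 1), (1 / 2 : ℝ) ^ ((r + 1 + i) / w) :=
          add_le_add h1 h2
      _ = _ := by rw [h4, add_comm]

theorem lln_mix {N : ℕ} (O : ℕ → Orth N) (w : ℕ) (hw : 1 ≤ w) (M : ℝ) (hM : 0 ≤ M) (m : ℕ) :
    ∀ (l : Fin (m + 1) → Fin N → ℝ), Meets m w O → (∀ j i, |l j i| ≤ M) → (∀ j, ∑ i, l j i = 0) →
      ∫ θ, fro (Bm O m l θ) ^ 2 ≤ 9 * w * N * M ^ 2 * (m + 1) := by
  have hw1 : (1 : ℝ) ≤ w := by exact_mod_cast hw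
  have hNM : (0 : ℝ) ≤ N * M ^ 2 := by positivity
  have hl2 : ∀ v : Fin N → ℝ, (∀ i, |v i| ≤ M) → ∑ i, v i * v i ≤ N * M ^ 2 := by
    intro v hv
    calc ∑ i, v i * v i ≤ ∑ _i : Fin N, M ^ 2 :=
          Finset.sum_le_sum fun i _ => by
            rw [← sq]
            exact sq_le_sq' (by linarith [(abs_le.1 (hv i)).1]) (abs_le.1 (hv i)).2
      _ = N * M ^ 2 := by simp
  have hbig : (N : ℝ) * M ^ 2 ≤ w * (N * M ^ 2) := le_mul_of_one_le_left hNM hw1
  induction m with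
  | zero =>
    intro l _ hl _
    have h : ∀ θ : Fin (0 + 1) → Fin N → UnitAddCircle, fro (Bm O 0 l θ) ^ 2 =
        ∑ x, l 0 x * l 0 x := by
      intro θ
      rw [LLN_fro_sq _ (LLN_herm _ _ _ _), Bm]
      exact LLN_trace_diag _ _ _ fun i => Matrix.diagonal_apply_eq _ i
    simp only [h]
    rw [integral_const]
    simp only [probReal_univ, one_smul]
    have h1 := hl2 (l 0) (hl 0)
    push_cast
    nlinarith
  | succ m ih =>
    intro l hO hl hs
    rw [LLN_rec]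
    have hO' : Meets m w O := fun j hj x y => hO j (by omega) x y
    have h1 := ih (fun j => l j.castSucc) hO' (fun j i => hl _ _) (fun j => hs _)
    have hω : ∀ x y, |l (Fin.last (m + 1)) x - l (Fin.last (m + 1)) y| ≤ 2 * M := by
      intro x y
      have a1 := abs_le.1 (hl (Fin.last (m + 1)) x)
      have a2 := abs_le.1 (hl (Fin.last (m + 1)) y)
      rw [abs_le]
      constructor <;> linarith [a1.1, a1.2, a2.1, a2.2]
    have h2 := (abs_le.1 (H_bound O (m + 1) w hw hO (l (Fin.last (m + 1))) M (2 * M) hM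
      (by positivity) hω m 1 (fun j => l j.castSucc) le_rfl (fun j i => hl _ _)
      (fun j => hs _))).2
    have e : bk O 1 m (l (Fin.last (m + 1))) = LLN_stp (O m) (l (Fin.last (m + 1))) := rfl
    rw [e] at h2
    have h3 := geo_sum w hw (m + 1) 1
    have h4 : (N : ℝ) * M * (2 * M) * ∑ i ∈ Finset.range (m + 1), (1 / 2 : ℝ) ^ ((1 + i) / w) ≤
        N * M * (2 * M) * (2 * w) := mul_le_mul_of_nonneg_left h3 (by positivity)
    have h5 := hl2 (l (Fin.last (m + 1))) (hl _)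
    push_cast
    nlinarith

end Mx
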