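import Pool.Agent.LibMx40.M02
import Pool.Agent.LibTy70.K01

/-! Row M04: the bound for the delay matrix. Plan: `An 1 K U = K`; `B0 O m l θ = (N / len l) • (Bm O m l θ - (len l / N) • 1)`;
`LLN_center`; `lln_mix` with `M = b - a`; `len l ≥ (m + 1) N a`. Model: `lln_fro`, `lln` in LibQGr/R_LLN. -/

open MeasureTheory Set Filter Topology

namespace Mx

open QGr Ty

theorem M04_An {N : ℕ} (K : Mat N) (U : Uni N) : An 1 K U = K := by
  unfold An
  simp

theorem b0_bound {N : ℕ} (hN : 0 < N) (O : ℕ → Orth N) (w : ℕ) (hw : 1 ≤ w) (a b : ℝ) (ha : 0 < a)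
    (hab : a ≤ b) (m : ℕ) (hO : Meets m w O) (l : Fin (m + 1) → Fin N → ℝ)
    (hl : ∀ j i, l j i ∈ Icc a b) :
    1 / N * ∫ θ, fro (An 1 (B0 O m l θ) (sy (tr O m θ))) ^ 2 ≤
      9 * w * ((b - a) / a) ^ 2 / (m + 1) := by
  have hn : (0 : ℝ) < (N : ℕ) := by exact_mod_cast hN
  have hm : (0 : ℝ) < (m : ℝ) + 1 := by positivity
  have hlen : ((m : ℝ) + 1) * (N * a) ≤ len l := by
    unfold len
    have h1 : ∀ j : Fin (m + 1), (N : ℝ) * a ≤ ∑ i', l j i' := by
      intro j
      have := Finset.sum_le_sum fun (i' : Fin N) (_ : i' ∈ Finset.univ) => (hl j i').1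
      simpa using this
    have h2 := Finset.sum_le_sum fun (j : Fin (m + 1)) (_ : j ∈ Finset.univ) => h1 j
    rw [Finset.sum_const, Finset.card_univ, Fintype.card_fin, nsmul_eq_mul] at h2
    push_cast at h2 ⊢
    exact h2
  have hlen0 : 0 < len l := lt_of_lt_of_le (by positivity) hlen
  have hB : ∀ θ, fro (An 1 (B0 O m l θ) (sy (tr O m θ))) ^ 2 =
      (N / len l) ^ 2 * fro (Bm O m l θ - ((len l / (N : ℕ) : ℝ) : ℂ) • 1) ^ 2 := by
    intro θ
    rw [M04_An]
    have e : B0 O m l θ = ((N / len l : ℝ) : ℂ) • (Bm O m l θ - ((len l / (N : ℕ) : ℝ) : ℂ) • 1) := by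
      unfold B0
      rw [smul_sub, smul_smul]
      congr 1
      have e1 : ((N / len l : ℝ) : ℂ) * ((len l / (N : ℕ) : ℝ) : ℂ) = 1 := by
        rw [← Complex.ofReal_mul]
        have : (N : ℝ) / len l * (len l / (N : ℕ)) = 1 := by field_simp
        rw [this, Complex.ofReal_one]
      rw [e1, one_smul]
    rw [e, fro_smul, Complex.norm_real, Real.norm_eq_abs, abs_of_pos (by positivity), mul_pow]
  simp only [hB]
  rw [integral_const_mul]
  simp only [LLN_center]
  have hmix := lln_mix O w hw (b - a) (by linarith) m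
    (fun j i => l j i - (∑ i', l j i') / (N : ℕ)) hO ?_ ?_
  · have hq : (N : ℝ) / len l ≤ 1 / (((m : ℝ) + 1) * a) := by
      rw [div_le_div_iff₀ hlen0 (by positivity)]
      nlinarith
    have hq2 : ((N : ℝ) / len l) ^ 2 ≤ (1 / (((m : ℝ) + 1) * a)) ^ 2 :=
      pow_le_pow_left₀ (by positivity) hq 2
    refine (mul_le_mul_of_nonneg_left (mul_le_mul_of_nonneg_left hmix (sq_nonneg _))
      (by positivity)).trans ?_
    have hnn : 0 ≤ 9 * (w : ℝ) * N * (b - a) ^ 2 * ((m : ℝ) + 1) := by positivity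
    calc 1 / (N : ℝ) * ((N / len l) ^ 2 * (9 * w * N * (b - a) ^ 2 * (m + 1)))
        ≤ 1 / (N : ℝ) * ((1 / (((m : ℝ) + 1) * a)) ^ 2 * (9 * w * N * (b - a) ^ 2 * (m + 1))) := by
          gcongr
      _ = 9 * w * ((b - a) / a) ^ 2 / (m + 1) := by
          field_simp
  · intro j i
    have h1 : (N : ℕ) * a ≤ ∑ i', l j i' := by
      have := Finset.sum_le_sum fun (i' : Fin N) (_ : i' ∈ Finset.univ) => (hl j i').1
      simpa using this
    have h2 : ∑ i', l j i' ≤ (N : ℕ) * b := by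
      have := Finset.sum_le_sum fun (i' : Fin N) (_ : i' ∈ Finset.univ) => (hl j i').2
      simpa using this
    have h3 : a ≤ (∑ i', l j i') / (N : ℕ) := by rw [le_div_iff₀ hn]; linarith
    have h4 : (∑ i', l j i') / (N : ℕ) ≤ b := by rw [div_le_iff₀ hn]; linarith
    have h5 := hl j i
    rw [abs_le]
    constructor <;> linarith [h5.1, h5.2]
  · intro j
    rw [Finset.sum_sub_distrib, Finset.sum_const, Finset.card_univ, Fintype.card_fin,
      nsmul_eq_mul]
    field_simp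
    ring

end Mx
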