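import Pool.Agent.LibMx40.Defs
import Pool.Agent.LibTy70.T01
import Pool.Agent.LibQGr.R_ZET

/-! Row M05: one layer, exact second moment. Plan: `(cx O * dg t * Y * (dg t)⁻¹ * (cx O)⁻¹) u v
= ∑ x y, O u x O v y e(t_x) conj e(t_y) Y x y`; for `Y = offd X` expand the square and integrate with
`ZET_two` (LibQGr/R_ZET): only equal pairs survive, and `∑ u v, S u v O u x ^2 O v y ^2` for `x ≠ y` is `KO O S x y`. -/

open MeasureTheory Set Filter Topology

namespace Mx

open QGr Ty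

theorem M05_sq {N : ℕ} (d : Fin N × Fin N → ℂ) (hd0 : ∀ p : Fin N × Fin N, p.1 = p.2 → d p = 0) :
    ∫ t : Tor N, ‖∑ p, d p * ZET_chi p t‖ ^ 2 = ∑ p, ‖d p‖ ^ 2 := by
  have hsq : ∀ t : Tor N, ‖∑ p, d p * ZET_chi p t‖ ^ 2 = ((∑ p, d p * ZET_chi p t) *
      (starRingEnd ℂ) (∑ p, d p * ZET_chi p t)).re := by
    intro t
    rw [Complex.mul_conj, Complex.normSq_eq_norm_sq, Complex.ofReal_re]
  simp only [hsq]
  have hterm : ∀ t : Tor N, (∑ p, d p * ZET_chi p t) * (starRingEnd ℂ) (∑ p, d p * ZET_chi p t) =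
      ∑ p, ∑ q, (d p * (starRingEnd ℂ) (d q)) *
        (ZET_chi p t * (starRingEnd ℂ) (ZET_chi q t)) := by
    intro t
    rw [map_sum, Finset.sum_mul_sum]
    refine Finset.sum_congr rfl fun p _ => Finset.sum_congr rfl fun q _ => ?_
    rw [map_mul]
    ring
  simp only [hterm]
  have hcont : ∀ p q : Fin N × Fin N, Continuous fun t => (d p * (starRingEnd ℂ) (d q)) *
      (ZET_chi p t * (starRingEnd ℂ) (ZET_chi q t)) := fun p q =>
    continuous_const.mul ((ZET_chi_cont p).mul (Complex.continuous_conj.comp (ZET_chi_cont q)))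
  have hint : ∀ p q : Fin N × Fin N, Integrable fun t => (d p * (starRingEnd ℂ) (d q)) *
      (ZET_chi p t * (starRingEnd ℂ) (ZET_chi q t)) := fun p q => ZET_int (hcont p q)
  have hi : Integrable fun t => ∑ p, ∑ q, (d p * (starRingEnd ℂ) (d q)) *
      (ZET_chi p t * (starRingEnd ℂ) (ZET_chi q t)) :=
    integrable_finsetSum _ fun p _ => integrable_finsetSum _ fun q _ => hint p q
  have h1 : ∫ t, (∑ p, ∑ q, (d p * (starRingEnd ℂ) (d q)) *
      (ZET_chi p t * (starRingEnd ℂ) (ZET_chi q t))).re = (∫ t, ∑ p, ∑ q,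
      (d p * (starRingEnd ℂ) (d q)) * (ZET_chi p t * (starRingEnd ℂ) (ZET_chi q t))).re := by
    have := integral_re hi
    simpa using this
  rw [h1, integral_finsetSum _ fun p _ => integrable_finsetSum _ fun q _ => hint p q]
  have h2 : ∀ p : Fin N × Fin N, ∫ t, ∑ q, (d p * (starRingEnd ℂ) (d q)) *
      (ZET_chi p t * (starRingEnd ℂ) (ZET_chi q t)) = ((‖d p‖ ^ 2 : ℝ) : ℂ) := by
    intro p
    rw [integral_finsetSum _ fun q _ => hint p q]
    simp only [integral_const_mul]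
    by_cases hp : p.1 = p.2
    · simp [hd0 p hp]
    · rw [Finset.sum_eq_single p]
      · rw [ZET_two p p hp hp, if_pos rfl, mul_one, Complex.mul_conj, Complex.normSq_eq_norm_sq]
      · intro q _ hq
        by_cases hq2 : q.1 = q.2
        · simp [hd0 q hq2]
        · rw [ZET_two p q hp hq2, if_neg (Ne.symm hq), mul_zero]
      · simp
  simp only [h2]
  rw [← Complex.ofReal_sum, Complex.ofReal_re]

theorem M05_entry {N : ℕ} (O : Orth N) (Y : Mat N) (t : Tor N) (u v : Fin N) :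
    ((cx O * dg t).1 * Y * ((cx O * dg t)⁻¹ : Uni N).1) u v =
      ∑ p : Fin N × Fin N, ((O.1 u p.1 : ℂ) * (O.1 v p.2 : ℂ) * Y p.1 p.2) * ZET_chi p t := by
  have hU : ∀ a b, (cx O * dg t).1 a b = (O.1 a b : ℂ) * ((AddCircle.toCircle (t b) : Circle) : ℂ) := by
    intro a b
    change ((cx O).1 * (Matrix.diagonal fun i => ((AddCircle.toCircle (t i) : Circle) : ℂ))) a b = _
    rw [Matrix.mul_diagonal, cx_apply]
  have hV : ∀ a b, ((cx O * dg t)⁻¹ : Uni N).1 a b =
      (O.1 b a : ℂ) * (starRingEnd ℂ) ((AddCircle.toCircle (t a) : Circle) : ℂ) := by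
    intro a b
    change ((cx O * dg t).1.conjTranspose) a b = _
    rw [Matrix.conjTranspose_apply, hU, Complex.star_def, map_mul, Complex.conj_ofReal]
  rw [Matrix.mul_apply, Fintype.sum_prod_type, Finset.sum_comm]
  refine Finset.sum_congr rfl fun y _ => ?_
  rw [Matrix.mul_apply, Finset.sum_mul]
  refine Finset.sum_congr rfl fun x _ => ?_
  rw [hU, hV]
  unfold ZET_chi
  ring

theorem int_form {N : ℕ} (O : Orth N) (S : Fin N → Fin N → ℝ) (X : Mat N) :
    ∫ t : Tor N, QS S ((cx O * dg t).1 * offd X * ((cx O * dg t)⁻¹ : Uni N).1) =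
      QS (KO O S) X := by
  unfold QS
  simp only [M05_entry]
  have hd0 : ∀ (u v : Fin N) (p : Fin N × Fin N), p.1 = p.2 →
      (O.1 u p.1 : ℂ) * (O.1 v p.2 : ℂ) * offd X p.1 p.2 = 0 := by
    intro u v p hp
    unfold offd
    simp [hp]
  have hc : ∀ u v : Fin N, Continuous fun t : Tor N => ‖∑ p : Fin N × Fin N,
      ((O.1 u p.1 : ℂ) * (O.1 v p.2 : ℂ) * offd X p.1 p.2) * ZET_chi p t‖ ^ 2 := fun u v =>
    ((continuous_finsetSum _ fun p _ => continuous_const.mul (ZET_chi_cont p)).norm).pow 2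
  have hi : ∀ u v : Fin N, Integrable fun t : Tor N => S u v * ‖∑ p : Fin N × Fin N,
      ((O.1 u p.1 : ℂ) * (O.1 v p.2 : ℂ) * offd X p.1 p.2) * ZET_chi p t‖ ^ 2 := fun u v =>
    (continuous_const.mul (hc u v)).integrable_of_hasCompactSupport
      (HasCompactSupport.of_compactSpace _)
  rw [integral_finsetSum _ fun u _ => integrable_finsetSum _ fun v _ => hi u v]
  have e1 : ∀ u : Fin N, ∫ t : Tor N, ∑ v, S u v * ‖∑ p : Fin N × Fin N,
      ((O.1 u p.1 : ℂ) * (O.1 v p.2 : ℂ) * offd X p.1 p.2) * ZET_chi p t‖ ^ 2 =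
      ∑ v, ∑ p : Fin N × Fin N, S u v * (O.1 u p.1 ^ 2 * O.1 v p.2 ^ 2 * ‖offd X p.1 p.2‖ ^ 2) := by
    intro u
    rw [integral_finsetSum _ fun v _ => hi u v]
    refine Finset.sum_congr rfl fun v _ => ?_
    rw [integral_const_mul, M05_sq _ (hd0 u v), Finset.mul_sum]
    refine Finset.sum_congr rfl fun p _ => ?_
    rw [norm_mul, norm_mul, Complex.norm_real, Complex.norm_real, mul_pow, mul_pow,
      Real.norm_eq_abs, Real.norm_eq_abs, sq_abs, sq_abs]
  simp only [e1]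
  have e2 : ∀ x y : Fin N, KO O S x y * ‖X x y‖ ^ 2 =
      ∑ u, ∑ v, S u v * (O.1 u x ^ 2 * O.1 v y ^ 2 * ‖offd X x y‖ ^ 2) := by
    intro x y
    unfold KO offd
    by_cases hxy : x = y
    · simp [hxy]
    · simp only [hxy, if_false, Matrix.of_apply]
      rw [Finset.sum_mul]
      refine Finset.sum_congr rfl fun u _ => ?_
      rw [Finset.sum_mul]
      refine Finset.sum_congr rfl fun v _ => ?_
      ring
  simp only [e2]
  rw [← Fintype.sum_prod_type (f := fun p : Fin N × Fin N =>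
    ∑ u, ∑ v, S u v * (O.1 u p.1 ^ 2 * O.1 v p.2 ^ 2 * ‖offd X p.1 p.2‖ ^ 2))]
  symm
  rw [Finset.sum_comm]
  refine Finset.sum_congr rfl fun u _ => ?_
  rw [Finset.sum_comm]

end Mx
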