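import Pool.Agent.LibMx40.M05
import Pool.Agent.LibTy70.T02

/-! Row M06: one layer. Let `δ x = (X x x).re`, `E = dgr (h δ)` (the diagonal unitary with angles `h δ x`). Translation
invariance of the Haar measure of the torus: `∫ g (cx O * dg t * (Z * A)) = ∫ g (cx O * dg t * E⁻¹ * Z * A)
= ∫ g (W_t * (cx O * dg t * A))`, `W_t = (cx O * dg t) * (E⁻¹ * Z) * (cx O * dg t)⁻¹`. With
`X_t = (cx O * dg t) * offd X * (cx O * dg t)⁻¹` (Hermitian, `fro X_t ≤ fro X ≤ c`),
`fro (W_t - (1 + i h X_t)) = fro (Z - E * (1 + i h offd X)) ≤ fro (Z - (1 + i h X)) + fro (1 + i h X - E - i h E * offd X)`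
and `1 + i h X - E - i h E offd X = (1 + i h dm δ - E) + i h (1 - E) * offd X`, `|e^{ix} - 1 - ix| ≤ x^2 / 2`, `|e^{ix} - 1| ≤ |x|`,
so it is at most `c' h ^ 2` with `c' = c + 2 c ^ 2` (say). Apply `Inf g S` with `c'`, integrate, Jensen
(`∫ √(QS S X_t) ≤ √(∫ QS S X_t)`, probability measure) and `int_form`. -/

open MeasureTheory Set Filter Topology

namespace Mx

open QGr Ty

theorem M06_taylor (x : ℝ) :
    ‖Complex.exp (x * Complex.I) - 1 - x * Complex.I‖ ≤ x ^ 2 := by
  have hd : ∀ u : ℝ, HasDerivAt (fun u : ℝ => Complex.exp (u * Complex.I) - 1 - u * Complex.I)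
      (Complex.exp (u * Complex.I) * Complex.I - Complex.I) u := by
    intro u
    have h5 : HasDerivAt (fun s : ℝ => (s : ℂ) * Complex.I) Complex.I u := by
      have : HasDerivAt (fun s : ℝ => (s : ℂ)) 1 u := by simpa using (hasDerivAt_id u).ofReal_comp
      simpa using this.mul_const Complex.I
    exact ((h5.cexp).sub_const 1).sub h5
  have hc : Continuous fun u : ℝ => Complex.exp (u * Complex.I) * Complex.I - Complex.I := by
    fun_prop
  have h1 := intervalIntegral.integral_eq_sub_of_hasDerivAt (a := 0) (b := x) (fun u _ => hd u)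
    (hc.intervalIntegrable _ _)
  have h2 : Complex.exp (x * Complex.I) - 1 - x * Complex.I =
      ∫ u in (0 : ℝ)..x, (Complex.exp (u * Complex.I) * Complex.I - Complex.I) := by
    rw [h1]; simp
  rw [h2]
  have h3 := intervalIntegral.norm_integral_le_of_norm_le_const (a := (0 : ℝ)) (b := x) (C := |x|)
    (f := fun u : ℝ => Complex.exp (u * Complex.I) * Complex.I - Complex.I) (fun u hu => by
      have e : Complex.exp (u * Complex.I) * Complex.I - Complex.I =
          (Complex.exp (Complex.I * u) - 1) * Complex.I := by rw [mul_comm Complex.I (u : ℂ)]; ring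
      rw [e, norm_mul, Complex.norm_I, mul_one]
      refine (Real.norm_exp_I_mul_ofReal_sub_one_le).trans ?_
      rw [Real.norm_eq_abs]
      rcases le_total 0 x with hx | hx
      · rw [uIoc_of_le hx] at hu
        rw [abs_of_pos hu.1, abs_of_nonneg hx]; exact hu.2
      · rw [uIoc_of_ge hx] at hu
        rw [abs_of_nonpos hu.2, abs_of_nonpos hx]; linarith [hu.1])
  refine h3.trans (le_of_eq ?_)
  rw [sub_zero, ← sq, sq_abs]

theorem M06_ee (x : ℝ) :
    ee ((x / (2 * Real.pi) : ℝ) : UnitAddCircle) = Complex.exp (x * Complex.I) := by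
  unfold ee
  rw [AddCircle.toCircle_apply_mk, Circle.coe_exp]
  congr 2
  have : (2 * Real.pi / 1 * (x / (2 * Real.pi)) : ℝ) = x := by field_simp
  rw [this]

theorem M06_dgr {N : ℕ} (r : Fin N → ℝ) :
    (dgr r).1 = Matrix.diagonal fun a => Complex.exp ((r a : ℝ) * Complex.I) := by
  unfold dgr
  rw [dg_val]
  congr 1
  ext a
  exact M06_ee (r a)

theorem M06_diag {N : ℕ} (d : Fin N → ℂ) (δ : Fin N → ℝ) (h : ∀ a, ‖d a‖ ≤ δ a) :
    fro (Matrix.diagonal d) ≤ √(∑ a, δ a ^ 2) := by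
  unfold fro
  refine Real.sqrt_le_sqrt (Finset.sum_le_sum fun a _ => ?_)
  rw [Finset.sum_eq_single a]
  · rw [Matrix.diagonal_apply_eq]
    exact pow_le_pow_left₀ (norm_nonneg _) (h a) 2
  · intro b _ hb
    rw [Matrix.diagonal_apply_ne _ hb.symm]
    simp
  · simp

/-- `√(∑ δ^4) ≤ ∑ δ^2`. -/
theorem M06_four {N : ℕ} (δ : Fin N → ℝ) : √(∑ a, (δ a ^ 2) ^ 2) ≤ ∑ a, δ a ^ 2 := by
  rw [Real.sqrt_le_left (Finset.sum_nonneg fun _ _ => sq_nonneg _), sq (∑ a, δ a ^ 2),
    Finset.sum_mul]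
  refine Finset.sum_le_sum fun a _ => ?_
  rw [sq]
  refine mul_le_mul_of_nonneg_left ?_ (sq_nonneg _)
  exact Finset.single_le_sum (f := fun a => δ a ^ 2) (fun _ _ => sq_nonneg _) (Finset.mem_univ a)

theorem M06_E {N : ℕ} (δ : Fin N → ℝ) (h : ℝ) :
    fro ((1 : Mat N) + ((h : ℂ) * Complex.I) • dm δ - (dgr (h • δ)).1) ≤ h ^ 2 * ∑ a, δ a ^ 2 := by
  have e : (1 : Mat N) + ((h : ℂ) * Complex.I) • dm δ - (dgr (h • δ)).1 =
      Matrix.diagonal fun a => -(Complex.exp (((h * δ a : ℝ) : ℂ) * Complex.I) - 1 -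
        ((h * δ a : ℝ) : ℂ) * Complex.I) := by
    rw [M06_dgr]
    unfold dm
    ext i j
    by_cases hij : i = j
    · subst hij
      simp
      ring
    · simp [hij]
  rw [e]
  refine (M06_diag _ (fun a => (h * δ a) ^ 2) fun a => ?_).trans ?_
  · rw [norm_neg]
    exact M06_taylor _
  · refine (M06_four fun a => h * δ a).trans (le_of_eq ?_)
    rw [Finset.mul_sum]
    exact Finset.sum_congr rfl fun a _ => by ring

theorem M06_E1 {N : ℕ} (δ : Fin N → ℝ) (h : ℝ) (h0 : 0 ≤ h) :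
    fro ((1 : Mat N) - (dgr (h • δ)).1) ≤ h * √(∑ a, δ a ^ 2) := by
  have e : (1 : Mat N) - (dgr (h • δ)).1 =
      Matrix.diagonal fun a => -(Complex.exp (Complex.I * ((h * δ a : ℝ) : ℂ)) - 1) := by
    rw [M06_dgr]
    ext i j
    by_cases hij : i = j
    · subst hij
      simp [mul_comm]
    · simp [hij]
  rw [e]
  refine (M06_diag _ (fun a => |h * δ a|) fun a => ?_).trans ?_
  · rw [norm_neg]
    exact Real.norm_exp_I_mul_ofReal_sub_one_le
  · have : (∑ a, |h * δ a| ^ 2) = h ^ 2 * ∑ a, δ a ^ 2 := by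
      rw [Finset.mul_sum]
      exact Finset.sum_congr rfl fun a _ => by rw [sq_abs]; ring
    rw [this, Real.sqrt_mul (sq_nonneg _), Real.sqrt_sq h0]

theorem M06_split {N : ℕ} (X : Mat N) (hX : X.conjTranspose = X) :
    X = dm (fun a => (X a a).re) + offd X := by
  ext i j
  unfold dm offd
  by_cases hij : i = j
  · subst hij
    simp
    have h := congrFun (congrFun hX i) i
    rw [Matrix.conjTranspose_apply] at h
    exact (Complex.conj_eq_iff_re.1 h).symm
  · simp [hij]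

theorem M06_offd_le {N : ℕ} (X : Mat N) : fro (offd X) ≤ fro X := by
  unfold fro offd
  refine Real.sqrt_le_sqrt (Finset.sum_le_sum fun a _ => Finset.sum_le_sum fun b _ => ?_)
  by_cases hab : a = b
  · simp [hab]
  · simp [hab]

theorem M06_dm_le {N : ℕ} (X : Mat N) : √(∑ a, (X a a).re ^ 2) ≤ fro X := by
  unfold fro
  refine Real.sqrt_le_sqrt (Finset.sum_le_sum fun a _ => ?_)
  refine le_trans ?_ (Finset.single_le_sum (f := fun b => ‖X a b‖ ^ 2) (fun _ _ => sq_nonneg _)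
    (Finset.mem_univ a))
  rw [← sq_abs]
  exact pow_le_pow_left₀ (abs_nonneg _) (Complex.abs_re_le_norm _) 2

theorem M06_offd_herm {N : ℕ} (X : Mat N) (hX : X.conjTranspose = X) :
    (offd X).conjTranspose = offd X := by
  ext i j
  have h := congrFun (congrFun hX i) j
  rw [Matrix.conjTranspose_apply] at h
  rw [Matrix.conjTranspose_apply]
  unfold offd
  by_cases hij : i = j
  · simp [hij]
  · have hji : j ≠ i := fun h => hij h.symm
    simp [hij, hji]
    exact h

theorem M06_mul_inv {N : ℕ} (U : Uni N) : U.1 * (U⁻¹ : Uni N).1 = 1 :=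
  congrArg Subtype.val (mul_inv_cancel U)

theorem M06_inv_mul {N : ℕ} (U : Uni N) : (U⁻¹ : Uni N).1 * U.1 = 1 :=
  congrArg Subtype.val (inv_mul_cancel U)

/-- The remainder. -/
theorem M06_rem {N : ℕ} (X : Mat N) (hX : X.conjTranspose = X) (c h : ℝ) (hc : fro X ≤ c)
    (h0 : 0 ≤ h) (Z : Uni N)
    (hZ : fro (Z.1 - (1 + ((h : ℂ) * Complex.I) • X)) ≤ c * h ^ 2) (U : Uni N) :
    fro ((U * ((dgr (h • fun a => (X a a).re))⁻¹ * Z) * U⁻¹ : Uni N).1 -
      (1 + ((h : ℂ) * Complex.I) • (U.1 * offd X * (U⁻¹ : Uni N).1))) ≤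
      (c + 2 * c ^ 2) * h ^ 2 := by
  have hc0 : 0 ≤ c := (fro_nonneg X).trans hc
  set δ : Fin N → ℝ := fun a => (X a a).re with hδ
  set E : Uni N := dgr (h • δ) with hE
  have hδc : √(∑ a, δ a ^ 2) ≤ c := (M06_dm_le X).trans hc
  have hδ2 : ∑ a, δ a ^ 2 ≤ c ^ 2 := by
    have h1 : 0 ≤ ∑ a, δ a ^ 2 := Finset.sum_nonneg fun _ _ => sq_nonneg _
    rw [← Real.sq_sqrt h1]
    exact pow_le_pow_left₀ (Real.sqrt_nonneg _) hδc 2
  have e1 : (U * (E⁻¹ * Z) * U⁻¹ : Uni N).1 -
      (1 + ((h : ℂ) * Complex.I) • (U.1 * offd X * (U⁻¹ : Uni N).1)) =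
      (U * E⁻¹).1 * (Z.1 - E.1 * (1 + ((h : ℂ) * Complex.I) • offd X)) * (U⁻¹ : Uni N).1 := by
    have a1 : (U * (E⁻¹ * Z) * U⁻¹ : Uni N).1 = U.1 * ((E⁻¹ : Uni N).1 * Z.1) * (U⁻¹ : Uni N).1 := rfl
    have a2 : (U * E⁻¹ : Uni N).1 = U.1 * (E⁻¹ : Uni N).1 := rfl
    have a3 : (U * E⁻¹).1 * (Z.1 - E.1 * (1 + ((h : ℂ) * Complex.I) • offd X)) * (U⁻¹ : Uni N).1 =
        U.1 * ((E⁻¹ : Uni N).1 * Z.1) * (U⁻¹ : Uni N).1 -
        U.1 * ((E⁻¹ : Uni N).1 * E.1) * (1 + ((h : ℂ) * Complex.I) • offd X) * (U⁻¹ : Uni N).1 := by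
      rw [a2]
      noncomm_ring
    rw [a3, M06_inv_mul, mul_one, a1]
    congr 1
    rw [mul_add, add_mul, mul_one, M06_mul_inv, Matrix.mul_smul, Matrix.smul_mul]
  rw [e1, fro_uni]
  have e2 : Z.1 - E.1 * (1 + ((h : ℂ) * Complex.I) • offd X) =
      (Z.1 - (1 + ((h : ℂ) * Complex.I) • X)) +
      (((1 : Mat N) + ((h : ℂ) * Complex.I) • dm δ - E.1) +
        ((h : ℂ) * Complex.I) • (((1 : Mat N) - E.1) * offd X)) := by
    nth_rewrite 2 [M06_split X hX]
    rw [mul_add, mul_one, Matrix.mul_smul, sub_mul, one_mul, smul_sub, smul_add]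
    abel
  rw [e2]
  refine (fro_add _ _).trans ?_
  have b1 : fro (((1 : Mat N) + ((h : ℂ) * Complex.I) • dm δ - E.1) +
        ((h : ℂ) * Complex.I) • (((1 : Mat N) - E.1) * offd X)) ≤ h ^ 2 * c ^ 2 + h * (h * c * c) := by
    refine (fro_add _ _).trans (add_le_add ?_ ?_)
    · exact (M06_E δ h).trans (mul_le_mul_of_nonneg_left hδ2 (sq_nonneg _))
    · rw [fro_smul, norm_mul, Complex.norm_I, mul_one, Complex.norm_real, Real.norm_eq_abs,
        abs_of_nonneg h0]
      refine mul_le_mul_of_nonneg_left ((fro_mul _ _).trans ?_) h0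
      refine mul_le_mul ?_ ((M06_offd_le X).trans hc) (fro_nonneg _) (by positivity)
      exact (M06_E1 δ h h0).trans (mul_le_mul_of_nonneg_left hδc h0)
  have b2 : c * h ^ 2 + (h ^ 2 * c ^ 2 + h * (h * c * c)) = (c + 2 * c ^ 2) * h ^ 2 := by ring
  linarith

theorem M06_int {N : ℕ} (f : Tor N → ℝ) (hf : Continuous f) : Integrable f :=
  hf.integrable_of_hasCompactSupport (HasCompactSupport.of_compactSpace f)

theorem M06_jensen {N : ℕ} (f : Tor N → ℝ) (hf : Continuous f) (h0 : ∀ t, 0 ≤ f t) :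
    ∫ t, √(f t) ≤ √(∫ t, f t) := by
  have hs : Continuous fun t => √(f t) := Real.continuous_sqrt.comp hf
  set M : ℝ := ∫ t, √(f t) with hM
  have h1 : 0 ≤ ∫ t, (√(f t) - M) ^ 2 := integral_nonneg fun t => sq_nonneg _
  have h2 : ∫ t, (√(f t) - M) ^ 2 = (∫ t, f t) - M ^ 2 := by
    have e : ∀ t, (√(f t) - M) ^ 2 = f t - (2 * M * √(f t) - M ^ 2) := by
      intro t
      have := Real.sq_sqrt (h0 t)
      nlinarith
    simp only [e]
    rw [integral_sub (M06_int f hf) (M06_int _ (by fun_prop)), integral_sub (M06_int _ (by fun_prop))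
      (integrable_const _), integral_const_mul, ← hM]
    simp
    ring
  refine Real.le_sqrt_of_sq_le ?_
  linarith

theorem inf_step {N : ℕ} (O : Orth N) (g : Uni N → ℝ) (hg : Continuous g) (S : Fin N → Fin N → ℝ)
    (hS : ∀ x y, 0 ≤ S x y) (h : Inf g S) : Inf (UV O g) (KO O S) := by
  intro c
  obtain ⟨K, hK⟩ := h (c + 2 * c ^ 2)
  refine ⟨K, fun X h Z A hX hc h0 h1 hZ => ?_⟩
  have hc0 : 0 ≤ c := (fro_nonneg X).trans hc
  set δ : Fin N → ℝ := fun a => (X a a).re with hδ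
  set E : Uni N := dgr (h • δ) with hE
  set U : Tor N → Uni N := fun t => cx O * dg t with hU
  have hUc : Continuous U := continuous_const.mul dg_cont
  set Xt : Tor N → Mat N := fun t => (U t).1 * offd X * ((U t)⁻¹ : Uni N).1 with hXt
  have hXc : Continuous Xt := by
    have a1 : Continuous fun t => (U t).1 := continuous_subtype_val.comp hUc
    have a2 : Continuous fun t => ((U t)⁻¹ : Uni N).1 := continuous_subtype_val.comp hUc.inv
    exact (a1.matrix_mul continuous_const).matrix_mul a2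
  have hQc : Continuous fun t => QS S (Xt t) := by
    unfold QS
    exact continuous_finsetSum _ fun i _ => continuous_finsetSum _ fun j _ =>
      continuous_const.mul (((hXc.matrix_elem i j).norm).pow 2)
  have hQ0 : ∀ t, 0 ≤ QS S (Xt t) := fun t => Finset.sum_nonneg fun _ _ =>
    Finset.sum_nonneg fun _ _ => mul_nonneg (hS _ _) (sq_nonneg _)
  have hEinv : E⁻¹ = dg (-fun a => (((h • δ) a / (2 * Real.pi) : ℝ) : UnitAddCircle)) := by
    rw [← dg_inv]
    rfl
  have e1 : UV O g (Z * A) = ∫ t, g ((U t * (E⁻¹ * Z) * (U t)⁻¹) * (U t * A)) := by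
    unfold UV
    rw [← intT_add (-fun a => (((h • δ) a / (2 * Real.pi) : ℝ) : UnitAddCircle))]
    refine integral_congr_ae (Eventually.of_forall fun t => ?_)
    simp only
    rw [dg_add, ← hEinv]
    congr 1
    rw [hU]
    group
  have c1 : Continuous fun t => g ((U t * (E⁻¹ * Z) * (U t)⁻¹) * (U t * A)) :=
    hg.comp ((((hUc.mul continuous_const).mul hUc.inv)).mul (hUc.mul continuous_const))
  have c2 : Continuous fun t => g (U t * A) := hg.comp (hUc.mul continuous_const)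
  have e2 : UV O g (Z * A) - UV O g A =
      ∫ t, (g ((U t * (E⁻¹ * Z) * (U t)⁻¹) * (U t * A)) - g (U t * A)) := by
    rw [e1, integral_sub (M06_int _ c1) (M06_int _ c2)]
    rfl
  rw [e2]
  have hpt : ∀ t, |g ((U t * (E⁻¹ * Z) * (U t)⁻¹) * (U t * A)) - g (U t * A)| ≤
      h * √(QS S (Xt t)) + K * h ^ 2 := by
    intro t
    refine hK (Xt t) h _ _ ?_ ?_ h0 h1 (M06_rem X hX c h hc h0 Z hZ (U t))
    · change ((U t).1 * offd X * (U t).1.conjTranspose).conjTranspose =
        (U t).1 * offd X * (U t).1.conjTranspose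
      rw [Matrix.conjTranspose_mul, Matrix.conjTranspose_mul, Matrix.conjTranspose_conjTranspose,
        M06_offd_herm X hX, mul_assoc]
    · rw [hXt]
      simp only
      rw [fro_uni]
      have := M06_offd_le X
      nlinarith [sq_nonneg c]
  have c3 : Continuous fun t => h * √(QS S (Xt t)) + K * h ^ 2 :=
    (continuous_const.mul (Real.continuous_sqrt.comp hQc)).add continuous_const
  calc |∫ t, (g ((U t * (E⁻¹ * Z) * (U t)⁻¹) * (U t * A)) - g (U t * A))|
      ≤ ∫ t, |g ((U t * (E⁻¹ * Z) * (U t)⁻¹) * (U t * A)) - g (U t * A)| := abs_integral_le_integral_abs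
    _ ≤ ∫ t, (h * √(QS S (Xt t)) + K * h ^ 2) :=
        integral_mono (M06_int _ (c1.sub c2).abs) (M06_int _ c3) hpt
    _ = h * (∫ t, √(QS S (Xt t))) + K * h ^ 2 := by
        have c4 : Continuous fun t => h * √(QS S (Xt t)) :=
          continuous_const.mul (Real.continuous_sqrt.comp hQc)
        rw [integral_add (M06_int _ c4) (integrable_const _), integral_const_mul]
        simp
    _ ≤ h * √(∫ t, QS S (Xt t)) + K * h ^ 2 := by
        have := mul_le_mul_of_nonneg_left (M06_jensen _ hQc hQ0) h0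
        linarith
    _ = h * √(QS (KO O S) X) + K * h ^ 2 := by
        rw [hXt, hU]
        simp only
        rw [int_form]

end Mx
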