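import Pool.Agent.LibMx40.M06

/-! Row M07: from the infinitesimal bound to the global one. -/

open MeasureTheory Set Filter Topology

namespace Mx

open QGr Ty

theorem M07_exp {N : ℕ} (T : Uni N) (r : Fin N → ℝ) (h : ℝ) :
    fro ((T * dgr (h • r) * T⁻¹ : Uni N).1 -
      (1 + ((h : ℂ) * Complex.I) • (T.1 * dm r * (T⁻¹ : Uni N).1))) ≤ h ^ 2 * ∑ a, r a ^ 2 := by
  have h1 : (T * dgr (h • r) * T⁻¹ : Uni N).1 -
      (1 + ((h : ℂ) * Complex.I) • (T.1 * dm r * (T⁻¹ : Uni N).1)) =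
      -(T.1 * ((1 : Mat N) + ((h : ℂ) * Complex.I) • dm r - (dgr (h • r)).1) * (T⁻¹ : Uni N).1) := by
    have a1 : (T * dgr (h • r) * T⁻¹ : Uni N).1 = T.1 * (dgr (h • r)).1 * (T⁻¹ : Uni N).1 := rfl
    rw [a1, mul_sub, sub_mul, mul_add, add_mul, mul_one, M06_mul_inv, Matrix.mul_smul,
      Matrix.smul_mul]
    abel
  rw [h1, fro_neg, fro_uni]
  exact M06_E r h

theorem M07_QS {N : ℕ} (S : Fin N → Fin N → ℝ) (ρ : ℝ) (hρ : ∀ x y, S x y ≤ ρ) (X : Mat N) :
    QS S X ≤ ρ * fro X ^ 2 := by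
  rw [fro_sq, Finset.mul_sum]
  unfold QS
  refine Finset.sum_le_sum fun x _ => ?_
  rw [Finset.mul_sum]
  exact Finset.sum_le_sum fun y _ => mul_le_mul_of_nonneg_right (hρ x y) (sq_nonneg _)

theorem glob {N : ℕ} (g : Uni N → ℝ) (S : Fin N → Fin N → ℝ) (hS : ∀ x y, 0 ≤ S x y)
    (h : Inf g S) (ρ : ℝ) (hρ : ∀ x y, S x y ≤ ρ) (A B : Uni N) :
    |g A - g B| ≤ √ρ * (Real.pi * √N) := by
  obtain ⟨V, φ, hφ, hV⟩ := HRT_diag (B * A⁻¹)
  have hB : B = V * dgr φ * V⁻¹ * A := by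
    have : B = B * A⁻¹ * A := by group
    rw [this, hV]
    rfl
  set s : ℝ := ∑ a, φ a ^ 2 with hs
  have hs0 : 0 ≤ s := Finset.sum_nonneg fun _ _ => sq_nonneg _
  have hsN : √s ≤ Real.pi * √N := by
    have h1 : s ≤ Real.pi ^ 2 * N := by
      calc s ≤ ∑ _a : Fin N, Real.pi ^ 2 := Finset.sum_le_sum fun a _ => by
            rw [← sq_abs]
            exact pow_le_pow_left₀ (abs_nonneg _) (hφ a) 2
        _ = Real.pi ^ 2 * N := by simp [mul_comm]
    calc √s ≤ √(Real.pi ^ 2 * N) := Real.sqrt_le_sqrt h1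
      _ = Real.pi * √N := by rw [Real.sqrt_mul (sq_nonneg _), Real.sqrt_sq Real.pi_pos.le]
  set X : Mat N := V.1 * dm φ * (V⁻¹ : Uni N).1 with hX
  have hXH : X.conjTranspose = X := by
    change (V.1 * dm φ * V.1.conjTranspose).conjTranspose = V.1 * dm φ * V.1.conjTranspose
    rw [Matrix.conjTranspose_mul, Matrix.conjTranspose_mul, Matrix.conjTranspose_conjTranspose,
      mul_assoc]
    congr 2
    unfold dm
    rw [Matrix.diagonal_conjTranspose]
    congr 1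
    ext a
    simp
  have hfX : fro X = √s := by rw [hX, fro_uni, fro_dm]
  obtain ⟨K, hK⟩ := h (√s + s)
  have hQ : √(QS S X) ≤ √ρ * √s := by
    rcases le_or_gt 0 ρ with hρ0 | hρ0
    · rw [← Real.sqrt_mul hρ0]
      refine Real.sqrt_le_sqrt ?_
      refine (M07_QS S ρ hρ X).trans ?_
      rw [hfX, Real.sq_sqrt hs0]
    · have : QS S X ≤ 0 := (M07_QS S ρ hρ X).trans (mul_nonpos_of_nonpos_of_nonneg hρ0.le (sq_nonneg _))
      rw [Real.sqrt_eq_zero_of_nonpos this]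
      positivity
  have hstep : ∀ n : ℕ, 0 < n → ∀ C : Uni N,
      |g (V * dgr ((1 / n : ℝ) • φ) * V⁻¹ * C) - g C| ≤ 1 / n * (√ρ * √s) + K * (1 / n) ^ 2 := by
    intro n hn C
    have hn0 : (0 : ℝ) < n := by exact_mod_cast hn
    have hn1 : (1 : ℝ) ≤ n := by exact_mod_cast hn
    have h1 := hK X (1 / n) (V * dgr ((1 / n : ℝ) • φ) * V⁻¹) C hXH (by rw [hfX]; linarith)
      (by positivity) (by rw [div_le_one hn0]; exact hn1) ?_
    · refine h1.trans ?_
      have := mul_le_mul_of_nonneg_left hQ (by positivity : (0 : ℝ) ≤ 1 / n)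
      linarith
    · refine (M07_exp V φ (1 / n)).trans ?_
      rw [mul_comm]
      refine mul_le_mul_of_nonneg_right ?_ (sq_nonneg _)
      have := Real.sqrt_nonneg s
      linarith
  have hpow : ∀ n : ℕ, 0 < n → (V * dgr ((1 / n : ℝ) • φ) * V⁻¹) ^ n = V * dgr φ * V⁻¹ := by
    intro n hn
    have hn0 : (0 : ℝ) < n := by exact_mod_cast hn
    have e1 : (V * dgr ((1 / n : ℝ) • φ) * V⁻¹) ^ n = V * dgr ((1 / n : ℝ) • φ) ^ n * V⁻¹ :=
      conj_pow
    rw [e1]
    congr 2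
    unfold dgr
    rw [dg_pow]
    congr 1
    funext a
    change n • ((((1 / n : ℝ) * φ a / (2 * Real.pi) : ℝ)) : UnitAddCircle) = _
    rw [← AddCircle.coe_nsmul]
    congr 1
    rw [nsmul_eq_mul]
    field_simp
  have hn : ∀ n : ℕ, 0 < n → |g B - g A| ≤ √ρ * √s + K * (1 / n) := by
    intro n hn
    have hn0 : (0 : ℝ) < n := by exact_mod_cast hn
    set Z : Uni N := V * dgr ((1 / n : ℝ) • φ) * V⁻¹ with hZ
    have h2 : ∀ k : ℕ, |g (Z ^ k * A) - g A| ≤ k * (1 / n * (√ρ * √s) + K * (1 / n) ^ 2) := by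
      intro k
      induction k with
      | zero => simp
      | succ k ih =>
        have h3 := hstep n hn (Z ^ k * A)
        have h4 := abs_sub_le (g (Z ^ (k + 1) * A)) (g (Z ^ k * A)) (g A)
        have h5 : Z ^ (k + 1) * A = Z * (Z ^ k * A) := by rw [pow_succ', mul_assoc]
        rw [← hZ, ← h5] at h3
        push_cast
        linarith
    have h3 := h2 n
    rw [hpow n hn, ← hB] at h3
    refine h3.trans (le_of_eq ?_)
    field_simp
  have hlim : |g B - g A| ≤ √ρ * √s := by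
    have h1 : Tendsto (fun n : ℕ => √ρ * √s + K * (1 / ((n : ℝ) + 1))) atTop
        (𝓝 (√ρ * √s + K * 0)) :=
      tendsto_const_nhds.add (tendsto_one_div_add_atTop_nhds_zero_nat.const_mul K)
    rw [mul_zero, add_zero] at h1
    refine ge_of_tendsto' h1 fun n => ?_
    have := hn (n + 1) (Nat.succ_pos n)
    push_cast at this
    exact this
  rw [abs_sub_comm]
  exact hlim.trans (mul_le_mul_of_nonneg_left hsN (Real.sqrt_nonneg _))

end Mx
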