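import Pool.Agent.LibMx40.M01
import Pool.Agent.LibMx40.M06
import Pool.Agent.LibMx40.M07

/-! Row M08: rate of convergence to the Haar measure. -/

open MeasureTheory Set Filter Topology

namespace Mx

open QGr Ty

/-- Base: a Lipschitz function. `|f (Z A) - f A| ≤ ℓ √(ds (Z A) A) = ℓ fro (Z - 1) ≤ ℓ (h fro X + c h^2)`. -/
theorem inf_base {N : ℕ} (f : Uni N → ℝ) (ℓ : ℝ) (hℓ : 0 ≤ ℓ)
    (hL : ∀ A B, |f A - f B| ≤ ℓ * √(ds A B)) : Inf f fun _ _ => ℓ ^ 2 := by
  intro c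
  refine ⟨ℓ * c, ?_⟩
  intro X h Z A _ _ h0 _ hZ
  have h1 : √(ds (Z * A) A) = fro (Z.1 - 1) := by
    have h2 : ds (Z * A) A = ds Z 1 := by
      have h3 := ds_right A Z 1
      rw [one_mul] at h3
      exact h3
    rw [h2]
    rfl
  have h2 : fro (Z.1 - 1) ≤ c * h ^ 2 + h * fro X := by
    have h3 : Z.1 - 1 = (Z.1 - (1 + ((h : ℂ) * Complex.I) • X)) + ((h : ℂ) * Complex.I) • X := by
      abel
    rw [h3]
    refine (fro_add _ _).trans (add_le_add hZ ?_)
    rw [fro_smul, norm_mul, Complex.norm_I, mul_one, Complex.norm_real, Real.norm_of_nonneg h0]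
  have h3 : √(QS (fun _ _ => ℓ ^ 2) X) = ℓ * fro X := by
    have h4 : QS (fun _ _ => ℓ ^ 2) X = ℓ ^ 2 * ∑ i, ∑ j, ‖X i j‖ ^ 2 := by
      unfold QS
      rw [Finset.mul_sum]
      refine Finset.sum_congr rfl fun i _ => ?_
      rw [Finset.mul_sum]
    rw [h4, Real.sqrt_mul (sq_nonneg ℓ), Real.sqrt_sq hℓ]
    rfl
  rw [h3]
  calc |f (Z * A) - f A| ≤ ℓ * √(ds (Z * A) A) := hL _ _
    _ = ℓ * fro (Z.1 - 1) := by rw [h1]
    _ ≤ ℓ * (c * h ^ 2 + h * fro X) := mul_le_mul_of_nonneg_left h2 hℓ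
    _ = h * (ℓ * fro X) + ℓ * c * h ^ 2 := by ring

theorem M08_unc {N : ℕ} (O : Orth N) (g : Uni N → ℝ) (hg : Continuous g) :
    Continuous (Function.uncurry fun (A : Uni N) (t : Tor N) => g (cx O * dg t * A)) := by
  refine hg.comp ?_
  exact (continuous_const.mul (dg_cont.comp continuous_snd)).mul continuous_fst

theorem UV_cont {N : ℕ} (O : Orth N) (g : Uni N → ℝ) (hg : Continuous g) : Continuous (UV O g) := by
  have := AVG_fc N
  have h2 := continuous_parametric_integral_of_continuous (μ := volume) (M08_unc O g hg)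
    (isCompact_univ (X := Tor N))
  simp only [Measure.restrict_univ] at h2
  exact h2

theorem GG_cont {N : ℕ} (O : ℕ → Orth N) (g : Uni N → ℝ) (hg : Continuous g) (w j : ℕ) :
    Continuous (GG O g w j) := by
  induction w generalizing j with
  | zero => exact hg
  | succ w ih => exact UV_cont (O j) _ (ih (j + 1))

theorem GG_snoc {N : ℕ} (O : ℕ → Orth N) (g : Uni N → ℝ) (w j : ℕ) :
    GG O g (w + 1) j = GG O (UV (O (j + w)) g) w j := by
  induction w generalizing j with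
  | zero => rfl
  | succ w ih =>
    have h1 : j + 1 + w = j + (w + 1) := by omega
    show UV (O j) (GG O g (w + 1) (j + 1)) = UV (O j) (GG O (UV (O (j + (w + 1))) g) w (j + 1))
    rw [ih (j + 1), h1]

theorem M08_cx_one {N : ℕ} : cx (1 : Orth N) = 1 := by
  apply Subtype.ext
  ext i j
  rw [cx_apply]
  by_cases h : i = j
  · subst h
    simp
  · have h1 : (1 : Orth N).1 i j = 0 := Matrix.one_apply_ne h
    have h2 : (1 : Uni N).1 i j = 0 := Matrix.one_apply_ne h
    rw [h1, h2]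
    simp

theorem M08_comm {N : ℕ} (O : Orth N) (f : Uni N → ℝ) : UV 1 (avg O f) = UV O (UV 1 f) := by
  funext B
  unfold UV avg
  simp only [M08_cx_one, one_mul, mul_assoc]

theorem M08_fub {N : ℕ} (O : ℕ → Orth N) (m : ℕ) (f : Uni N → ℝ) (hf : Continuous f) (A : Uni N) :
    ∫ θ, f (tr O m θ * A) = GG O (UV 1 f) m 0 A := by
  induction m generalizing f with
  | zero =>
    have hc : Continuous fun θ : Fin (0 + 1) → Fin N → UnitAddCircle => f (tr O 0 θ * A) :=
      hf.comp ((tr_cont O 0).mul continuous_const)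
    rw [snoc_int 0 _ hc]
    have h1 : ∀ (θ : Fin 0 → Fin N → UnitAddCircle) (t : Fin N → UnitAddCircle),
        tr O 0 (Fin.snoc θ t) = dg t := by
      intro θ t
      rfl
    simp only [h1]
    show _ = ∫ t : Tor N, f (cx 1 * dg t * A)
    simp only [M08_cx_one, one_mul]
    simp
  | succ m ih =>
    have hc : Continuous fun θ : Fin (m + 1 + 1) → Fin N → UnitAddCircle =>
        f (tr O (m + 1) θ * A) := hf.comp ((tr_cont O (m + 1)).mul continuous_const)
    rw [snoc_int (m + 1) _ hc]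
    have h1 : ∀ (θ : Fin (m + 1) → Fin N → UnitAddCircle)
        (t : Fin N → UnitAddCircle),
        tr O (m + 1) (Fin.snoc θ t) * A = dg t * cx (O m) * (tr O m θ * A) := by
      intro θ t
      simp [tr, mul_assoc]
    simp only [h1]
    rw [GG_snoc, zero_add, ← M08_comm]
    exact ih (avg (O m) f) (avg_cont (O m) f hf)

/-- Fubini over the layers: induction on `m` with `snoc_int` as in `fub` (LibQGr/R_AVG);
`UV 1 (avg O f) = UV O (UV 1 f)` pointwise. -/
theorem GG_fub {N : ℕ} (O : ℕ → Orth N) (m : ℕ) (f : Uni N → ℝ) (hf : Continuous f) (A : Uni N) :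
    ∫ θ, f (tr O m θ * A) = GG O (UV 1 f) m 0 A := M08_fub O m f hf A

theorem M08_KO_nonneg {N : ℕ} (O : Orth N) (S : Fin N → Fin N → ℝ) (hS : ∀ x y, 0 ≤ S x y)
    (x y : Fin N) : 0 ≤ KO O S x y := by
  unfold KO
  split_ifs
  · exact le_rfl
  · exact Finset.sum_nonneg fun u _ => Finset.sum_nonneg fun v _ =>
      mul_nonneg (mul_nonneg (sq_nonneg _) (sq_nonneg _)) (hS u v)

theorem M08_nm_nonneg {N : ℕ} (O : ℕ → Orth N) (S : Fin N → Fin N → ℝ) (hS : ∀ x y, 0 ≤ S x y)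
    (w j : ℕ) (x y : Fin N) : 0 ≤ nm O S w j x y := by
  induction w generalizing j x y with
  | zero => exact hS x y
  | succ w ih => exact M08_KO_nonneg (O j) _ (fun x y => ih (j + 1) x y) x y

theorem GG_inf {N : ℕ} (O : ℕ → Orth N) (g : Uni N → ℝ) (hg : Continuous g)
    (S : Fin N → Fin N → ℝ) (hS : ∀ x y, 0 ≤ S x y) (h : Inf g S) (w j : ℕ) :
    Inf (GG O g w j) (nm O S w j) := by
  induction w generalizing j with
  | zero => exact h
  | succ w ih =>
    exact inf_step (O j) _ (GG_cont O g hg w (j + 1)) _ (M08_nm_nonneg O S hS w (j + 1))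
      (ih (j + 1))

theorem M08_UV_haar {N : ℕ} (O : Orth N) (f : Uni N → ℝ) (hf : Continuous f) :
    ∫ A, UV O f A ∂(haarU N) = ∫ A, f A ∂(haarU N) := by
  have : IsProbabilityMeasure (haarU N) :=
    ⟨by
      unfold haarU
      exact Measure.haarMeasure_self⟩
  have : (haarU N).IsMulLeftInvariant := by
    unfold haarU
    infer_instance
  have h := M08_unc O f hf
  unfold UV
  rw [integral_integral_swap]
  · have h1 : ∀ t : Tor N,
        ∫ A, f (cx O * dg t * A) ∂(haarU N) = ∫ A, f A ∂(haarU N) := fun t =>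
      integral_mul_left_eq_self f _
    simp only [h1]
    simp
  · exact AVG_int _ _ h

theorem M08_GG_haar {N : ℕ} (O : ℕ → Orth N) (g : Uni N → ℝ) (hg : Continuous g) (w j : ℕ) :
    ∫ A, GG O g w j A ∂(haarU N) = ∫ A, g A ∂(haarU N) := by
  induction w generalizing j with
  | zero => rfl
  | succ w ih =>
    exact (M08_UV_haar (O j) _ (GG_cont O g hg w (j + 1))).trans (ih (j + 1))

theorem M08_KO_one {N : ℕ} (a : ℝ) :
    KO (1 : Orth N) (fun _ _ => a) = fun x y => if x = y then 0 else a := by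
  funext x y
  unfold KO
  by_cases h : x = y
  · rw [if_pos h, if_pos h]
  · rw [if_neg h, if_neg h]
    have h1 : ∀ u v : Fin N, ((1 : Orth N).1 u v) ^ 2 = if u = v then 1 else 0 := by
      intro u v
      have h2 : (1 : Orth N).1 u v = if u = v then 1 else 0 := Matrix.one_apply
      rw [h2]
      split_ifs <;> norm_num
    simp only [h1]
    rw [Finset.sum_eq_single x]
    · rw [Finset.sum_eq_single y]
      · simp
      · intro v _ hv
        rw [if_neg hv, mul_zero, zero_mul]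
      · intro hy
        exact absurd (Finset.mem_univ y) hy
    · intro u _ hu
      refine Finset.sum_eq_zero fun v _ => ?_
      rw [if_neg hu, zero_mul, zero_mul]
    · intro hx
      exact absurd (Finset.mem_univ x) hx

/-- Assembly: `G A = ∫ θ, f (tr O m θ * A)`; `∫ A, G A = ∫ A, f A` (left invariance, Fubini), `|G 1 - G A| ≤ ...` by `glob`,
`S = nm O (KO 1 (ℓ^2)) m 0`, `KO 1 (fun _ _ => ℓ ^ 2) x y = if x = y then 0 else ℓ ^ 2` (`(1 : Orth N)` has entries 0, 1), `nm_const`. -/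
theorem mix_rate {N : ℕ} (O : ℕ → Orth N) (f : Uni N → ℝ) (hf : Continuous f) (ℓ : ℝ) (hℓ : 0 ≤ ℓ)
    (hL : ∀ A B, |f A - f B| ≤ ℓ * √(ds A B)) (m : ℕ) (ρ : ℝ) (hρ : ∀ x y, nomeet O m 0 x y ≤ ρ) :
    |(∫ θ, f (tr O m θ)) - ∫ A, f A ∂(haarU N)| ≤ ℓ * √ρ * (Real.pi * √N) := by
  have hprob : IsProbabilityMeasure (haarU N) :=
    ⟨by
      unfold haarU
      exact Measure.haarMeasure_self⟩
  set G : Uni N → ℝ := GG O (UV 1 f) m 0 with hG
  have hU : Continuous (UV 1 f) := UV_cont 1 f hf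
  have hGc : Continuous G := GG_cont O _ hU m 0
  have h1 : (∫ θ, f (tr O m θ)) = G 1 := by
    rw [hG, ← GG_fub O m f hf 1]
    simp only [mul_one]
  have h2 : ∫ A, f A ∂(haarU N) = ∫ A, G A ∂(haarU N) := by
    rw [hG, M08_GG_haar O _ hU m 0, M08_UV_haar 1 f hf]
  have hS0 : ∀ x y : Fin N, 0 ≤ (fun _ _ : Fin N => ℓ ^ 2) x y := fun _ _ => sq_nonneg ℓ
  have h3 : Inf (UV 1 f) (KO 1 fun _ _ => ℓ ^ 2) := inf_step 1 f hf _ hS0 (inf_base f ℓ hℓ hL)
  have hS1 := M08_KO_nonneg (1 : Orth N) _ hS0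
  have h4 : Inf G (nm O (KO 1 fun _ _ => ℓ ^ 2) m 0) := GG_inf O _ hU _ hS1 h3 m 0
  have h5 : ∀ x y, nm O (KO 1 fun _ _ => ℓ ^ 2) m 0 x y ≤ ℓ ^ 2 * ρ := by
    intro x y
    rw [M08_KO_one, nm_const]
    exact mul_le_mul_of_nonneg_left (hρ x y) (sq_nonneg ℓ)
  have h6 : ∀ A, |G 1 - G A| ≤ ℓ * √ρ * (Real.pi * √N) := by
    intro A
    have h7 := glob G _ (M08_nm_nonneg O _ hS1 m 0) h4 (ℓ ^ 2 * ρ) h5 1 A
    rwa [Real.sqrt_mul (sq_nonneg ℓ), Real.sqrt_sq hℓ] at h7
  have h8 : (∫ θ, f (tr O m θ)) - ∫ A, f A ∂(haarU N) = ∫ A, (G 1 - G A) ∂(haarU N) := by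
    rw [h1, h2, integral_sub (integrable_const _) (AVG_int _ _ hGc)]
    simp
  rw [h8]
  have h9 := norm_integral_le_of_norm_le_const (μ := haarU N)
    (Filter.Eventually.of_forall fun A => (Real.norm_eq_abs (G 1 - G A)).trans_le (h6 A))
  rw [Real.norm_eq_abs] at h9
  simpa using h9

end Mx
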