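import Pool.Agent.LibMx40.M04
import Pool.Agent.LibMx40.M08
import Pool.Agent.LibTy70.V11
import Pool.Agent.LibTy70.F00
import Pool.Agent.LibCOE.CP_V9
import Pool.Agent.LibCOE.CP_S16

/-! Row M09: spacings of mixing graphs. Model: `typ_spac` in LibTy70/F01 without the measure part: `fixed_spac` with
`n = 1`, `b0_bound`, `mix_rate` with `f A = pspac N f (phases (sy A).1)` (`pspac_lip`), `ρ = (1/2)^(m / w)` (`nomeet_pow`),
`COE.goe_spac`. Numbers: `m ≥ C w log N` gives `w / (m + 1) ≤ 1 / (C log N)` and `(1/2)^(m/w) ≤ 2 · 2^(-C log N) = 2 N^(-C log 2)`. -/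

open MeasureTheory Set Filter Topology

namespace Mx

open QGr Ty COE

/-- The rate: `N ^ k √((1/2)^(m/w))` tends to zero uniformly for `m ≥ C w log N`, `C > 2 k / log 2`. -/
theorem rate_small (k : ℕ) (A δ : ℝ) (hδ : 0 < δ) : ∃ (C : ℝ) (N₀ : ℕ), 0 < C ∧ ∀ N : ℕ, N₀ ≤ N →
    ∀ m w : ℕ, 1 ≤ w → C * w * Real.log N ≤ m → A * (N : ℝ) ^ k * √((1 / 2 : ℝ) ^ (m / w)) ≤ δ := by
  have hlog2 : 0 < Real.log 2 := Real.log_pos (by norm_num)
  refine ⟨2 * (k + 1) / Real.log 2, ⌈2 * |A| / δ⌉₊ + 1, by positivity, fun N hN m w hw hm => ?_⟩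
  have hN1 : 1 ≤ N := by omega
  have hNR : (1 : ℝ) ≤ N := by exact_mod_cast hN1
  have hN0 : (0 : ℝ) < N := by linarith
  have hNδ : 2 * |A| / δ ≤ N := by
    refine (Nat.le_ceil _).trans ?_
    have h1 : ⌈2 * |A| / δ⌉₊ ≤ N := by omega
    exact_mod_cast h1
  have hwR : (0 : ℝ) < w := by exact_mod_cast hw
  set q : ℕ := m / w with hq
  have hq1 : (m : ℝ) ≤ w * (q + 1 : ℕ) := by
    have h1 : m < w * (q + 1) := by
      have h2 := Nat.lt_mul_div_succ m (Nat.lt_of_lt_of_le Nat.zero_lt_one hw)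
      exact h2
    exact_mod_cast h1.le
  have hq2 : 2 * (k + 1) * Real.log N ≤ (q + 1 : ℕ) * Real.log 2 := by
    have h1 : 2 * (k + 1) / Real.log 2 * w * Real.log N ≤ w * (q + 1 : ℕ) := hm.trans hq1
    have h2 : w * (2 * (k + 1) / Real.log 2 * Real.log N) ≤ w * (q + 1 : ℕ) := by
      calc w * (2 * (k + 1) / Real.log 2 * Real.log N)
          = 2 * (k + 1) / Real.log 2 * w * Real.log N := by ring
        _ ≤ _ := h1
    have h3 : 2 * (k + 1) / Real.log 2 * Real.log N ≤ (q + 1 : ℕ) :=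
      le_of_mul_le_mul_left h2 hwR
    calc 2 * (k + 1) * Real.log N = 2 * (k + 1) / Real.log 2 * Real.log N * Real.log 2 := by
          field_simp
      _ ≤ _ := mul_le_mul_of_nonneg_right h3 hlog2.le
  have hpow : (1 / 2 : ℝ) ^ q ≤ (2 / (N : ℝ) ^ (k + 1)) ^ 2 := by
    have h1 : (1 / 2 : ℝ) ^ (q + 1) ≤ 1 / ((N : ℝ) ^ (k + 1)) ^ 2 := by
      have h2 : ((N : ℝ) ^ (k + 1)) ^ 2 ≤ 2 ^ (q + 1) := by
        rw [← Real.log_le_log_iff (by positivity) (by positivity), Real.log_pow, Real.log_pow,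
          Real.log_pow]
        push_cast at hq2 ⊢
        linarith
      rw [one_div_pow]
      exact one_div_le_one_div_of_le (by positivity) h2
    calc (1 / 2 : ℝ) ^ q = 2 * (1 / 2 : ℝ) ^ (q + 1) := by rw [pow_succ]; ring
      _ ≤ 2 * (1 / ((N : ℝ) ^ (k + 1)) ^ 2) := by linarith
      _ ≤ (2 / (N : ℝ) ^ (k + 1)) ^ 2 := by
          rw [div_pow, mul_one_div]
          refine div_le_div_of_nonneg_right (by norm_num) (by positivity)
  have hsq : √((1 / 2 : ℝ) ^ q) ≤ 2 / (N : ℝ) ^ (k + 1) :=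
    Real.sqrt_le_iff.2 ⟨by positivity, hpow⟩
  have hAN : 2 * |A| / N ≤ δ := by
    rw [div_le_iff₀ hN0]
    rw [div_le_iff₀ hδ] at hNδ
    linarith
  calc A * (N : ℝ) ^ k * √((1 / 2 : ℝ) ^ q)
      ≤ |A| * (N : ℝ) ^ k * √((1 / 2 : ℝ) ^ q) := by
        gcongr
        exact le_abs_self A
    _ ≤ |A| * (N : ℝ) ^ k * (2 / (N : ℝ) ^ (k + 1)) := by gcongr
    _ = 2 * |A| / N := by
        rw [pow_succ]
        field_simp
    _ ≤ δ := hAN

/-- `A w / (m + 1) ≤ δ`. -/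
theorem lin_small (A δ : ℝ) (hδ : 0 < δ) : ∃ (C : ℝ) (N₀ : ℕ), 0 < C ∧ ∀ N : ℕ, N₀ ≤ N →
    ∀ m w : ℕ, 1 ≤ w → C * w * Real.log N ≤ m → A * w / (m + 1) ≤ δ := by
  refine ⟨1, ⌈Real.exp (|A| / δ)⌉₊ + 1, one_pos, fun N hN m w hw hm => ?_⟩
  have hN1 : Real.exp (|A| / δ) ≤ N := by
    refine (Nat.le_ceil _).trans ?_
    have h1 : ⌈Real.exp (|A| / δ)⌉₊ ≤ N := by omega
    exact_mod_cast h1
  have hlog : |A| / δ ≤ Real.log N := by
    rw [Real.le_log_iff_exp_le (lt_of_lt_of_le (Real.exp_pos _) hN1)]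
    exact hN1
  have hwR : (0 : ℝ) < w := by exact_mod_cast hw
  rw [div_le_iff₀ hδ] at hlog
  rw [div_le_iff₀ (by positivity)]
  have h1 : A * w ≤ Real.log N * δ * w :=
    (mul_le_mul_of_nonneg_right (le_abs_self A) hwR.le).trans
      (mul_le_mul_of_nonneg_right hlog hwR.le)
  have h2 : Real.log N * δ * w ≤ δ * m := by
    calc Real.log N * δ * w = δ * (1 * w * Real.log N) := by ring
      _ ≤ δ * m := mul_le_mul_of_nonneg_left hm hδ.le
  have h3 : δ * m ≤ δ * (m + 1) := by nlinarith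
  linarith

theorem meets_pos {N m w : ℕ} (hN : 2 ≤ N) (O : ℕ → Orth N) (hO : Meets m w O) : 1 ≤ w := by
  by_contra hcon
  have hw : w = 0 := by omega
  subst hw
  have h1 := hO 0 (by omega) ⟨0, by omega⟩ ⟨1, by omega⟩
  have h2 : nomeet O 0 0 (⟨0, by omega⟩ : Fin N) ⟨1, by omega⟩ = 1 := by
    rw [nomeet, if_neg]
    intro h3
    exact absurd (congrArg Fin.val h3) (by norm_num)
  rw [h2] at h1
  norm_num at h1

theorem mix_spac_coe (a b : ℝ) (ha : 0 < a) (hab : a ≤ b) (f : ℝ → ℝ) (L K : ℝ) (hL0 : 0 ≤ L)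
    (hL : ∀ u v, |f u - f v| ≤ L * dist u v) (hK : ∀ v, |f v| ≤ K) (ε : ℝ) (hε : 0 < ε) :
    ∃ (C : ℝ) (N₀ : ℕ), ∀ N : ℕ, N₀ ≤ N → ∀ (O : ℕ → Orth N) (w m : ℕ), Meets m w O →
      C * w * Real.log N ≤ m → ∀ l : Fin (m + 1) → Fin N → ℝ, (∀ j i, l j i ∈ Icc a b) →
      LinearIndependent ℚ (fun q : Fin (m + 1) × Fin N => l q.1 q.2) →
      ∀ κ, IsLevels N m O l κ → ∀ᶠ T : ℝ in atTop, |spac f (unf l κ) T - coeSpac N f| ≤ ε := by
  obtain ⟨C₁, N₁, hC₁, H₁⟩ := fixed_spac a b ha hab f L K hL0 hL hK (ε / 4) (by linarith)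
  set τ : ℝ := ε / (4 * (C₁ + 1)) with hτ
  have hτ0 : 0 < τ := by positivity
  set δ₂ : ℝ := ε * τ / (4 * (C₁ + 1)) with hδ₂
  have hδ₂0 : 0 < δ₂ := by positivity
  have hC₁' : C₁ / (C₁ + 1) ≤ 1 := (div_le_one (by linarith)).2 (by linarith)
  have e1 : C₁ * τ ≤ ε / 4 := by
    have : C₁ * τ = C₁ / (C₁ + 1) * (ε / 4) := by rw [hτ]; field_simp
    rw [this]
    nlinarith
  have e2 : C₁ * (1 / τ * δ₂) ≤ ε / 4 := by
    have : C₁ * (1 / τ * δ₂) = C₁ / (C₁ + 1) * (ε / 4) := by rw [hδ₂]; field_simp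
    rw [this]
    nlinarith
  obtain ⟨Ca, Na, hCa, Ha⟩ := rate_small 2 (4 * L) (ε / 4) (by linarith)
  obtain ⟨Cb, Nb, hCb, Hb⟩ := lin_small (9 * ((b - a) / a) ^ 2) δ₂ hδ₂0
  refine ⟨max Ca Cb, max (max N₁ 2) (max Na Nb), fun N hN O w m hO hm l hl hi κ hκ => ?_⟩
  have hN1 : N₁ ≤ N := (le_max_left _ _).trans ((le_max_left _ _).trans hN)
  have hN2 : 2 ≤ N := (le_max_right _ _).trans ((le_max_left _ _).trans hN)
  have hNa : Na ≤ N := (le_max_left _ _).trans ((le_max_right _ _).trans hN)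
  have hNb : Nb ≤ N := (le_max_right _ _).trans ((le_max_right _ _).trans hN)
  have hN0 : 0 < N := by omega
  have hNR : (1 : ℝ) ≤ N := by exact_mod_cast (by omega : 1 ≤ N)
  have hw := meets_pos hN2 O hO
  have hwl : 0 ≤ (w : ℝ) * Real.log N := mul_nonneg (Nat.cast_nonneg _) (Real.log_nonneg hNR)
  have hma : Ca * w * Real.log N ≤ m := by
    refine le_trans ?_ hm
    rw [mul_assoc, mul_assoc]
    exact mul_le_mul_of_nonneg_right (le_max_left _ _) hwl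
  have hmb : Cb * w * Real.log N ≤ m := by
    refine le_trans ?_ hm
    rw [mul_assoc, mul_assoc]
    exact mul_le_mul_of_nonneg_right (le_max_right _ _) hwl
  have ra := Ha N hNa m w hw hma
  have rb := Hb N hNb m w hw hmb
  obtain ⟨hc1, -, hc3⟩ := pspac_lip hN0 f L hL0 hL
  have hrate := mix_rate O (fun A : Uni N => pspac N f (phases (sy A).1)) (hc1.comp sy_cont)
    (L * N) (by positivity) hc3 m ((1 / 2 : ℝ) ^ (m / w))
    (fun x y => nomeet_pow O m w hw hO m 0 (by omega) x y)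
  have hcoe : ∫ A : Uni N, pspac N f (phases (sy A).1) ∂(haarU N) = coeSpac N f := rfl
  rw [hcoe] at hrate
  have hrate2 : L * N * √((1 / 2 : ℝ) ^ (m / w)) * (Real.pi * √N) ≤ ε / 4 := by
    refine le_trans ?_ ra
    have h1 : √(N : ℝ) ≤ N := by
      rw [Real.sqrt_le_iff]
      constructor
      · linarith
      · nlinarith
    have h2 : Real.pi * √N ≤ 4 * N :=
      mul_le_mul Real.pi_le_four h1 (Real.sqrt_nonneg _) (by norm_num)
    calc L * N * √((1 / 2 : ℝ) ^ (m / w)) * (Real.pi * √N)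
        ≤ L * N * √((1 / 2 : ℝ) ^ (m / w)) * (4 * N) := by gcongr
      _ = 4 * L * (N : ℝ) ^ 2 * √((1 / 2 : ℝ) ^ (m / w)) := by ring
  have hb0 := b0_bound hN0 O w hw a b ha hab m hO l hl
  have hb1 : 1 / N * ∫ θ, fro (An 1 (B0 O m l θ) (sy (tr O m θ))) ^ 2 ≤ δ₂ := by
    refine hb0.trans (le_trans (le_of_eq ?_) rb)
    ring
  filter_upwards [H₁ N hN1 O m l hl hi κ hκ 1 τ le_rfl hτ0] with T hT
  have j1 : C₁ * (τ + 1 / τ * (1 / N * ∫ θ, fro (An 1 (B0 O m l θ) (sy (tr O m θ))) ^ 2)) ≤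
      ε / 4 + ε / 4 := by
    rw [mul_add]
    refine add_le_add e1 (le_trans ?_ e2)
    exact mul_le_mul_of_nonneg_left (mul_le_mul_of_nonneg_left hb1 (by positivity)) hC₁
  have j2 := abs_sub_le (spac f (unf l κ) T)
    (∫ θ, pspac N f (phases (sy (tr O m θ)).1)) (coeSpac N f)
  have j3 : |(∫ θ, pspac N f (phases (sy (tr O m θ)).1)) - coeSpac N f| ≤ ε / 4 :=
    hrate.trans hrate2
  linarith

theorem mix_spac (a b : ℝ) (ha : 0 < a) (hab : a ≤ b) (μ : Measure ℝ) (h1 : IsProbabilityMeasure μ)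
    (hμ : ∀ s, 0 ≤ s → μ.real (Ioi s) = gE s) (f : ℝ → ℝ) (L K : ℝ) (hL0 : 0 ≤ L)
    (hL : ∀ u v, |f u - f v| ≤ L * dist u v) (hK : ∀ v, |f v| ≤ K) (ε : ℝ) (hε : 0 < ε) :
    ∃ (C : ℝ) (N₀ : ℕ), ∀ N : ℕ, N₀ ≤ N → Even N → ∀ (O : ℕ → Orth N) (w m : ℕ), Meets m w O →
      C * w * Real.log N ≤ m → ∀ l : Fin (m + 1) → Fin N → ℝ, (∀ j i, l j i ∈ Icc a b) →
      LinearIndependent ℚ (fun q : Fin (m + 1) × Fin N => l q.1 q.2) →
      ∀ κ, IsLevels N m O l κ → ∀ᶠ T : ℝ in atTop, |spac f (unf l κ) T - ∫ x, f x ∂μ| ≤ ε := by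
  obtain ⟨C, N₀, H⟩ := mix_spac_coe a b ha hab f L K hL0 hL hK (ε / 2) (by linarith)
  have hlim := goe_spac μ h1 hμ f L K hL0 hL hK
  rw [Metric.tendsto_atTop] at hlim
  obtain ⟨A', hA'⟩ := hlim (ε / 2) (by linarith)
  refine ⟨C, max N₀ (2 * A'), fun N hN hE O w m hO hm l hl hi κ hκ => ?_⟩
  have hN0 : N₀ ≤ N := (le_max_left _ _).trans hN
  have hNA : 2 * A' ≤ N := (le_max_right _ _).trans hN
  have hcoe : |coeSpac N f - ∫ x, f x ∂μ| ≤ ε / 2 := by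
    obtain ⟨r, hr⟩ := hE
    have hr2 : N = r * 2 := by omega
    subst hr2
    have h2 := hA' r (by omega)
    rw [Real.dist_eq] at h2
    exact h2.le
  filter_upwards [H N hN0 O w m hO hm l hl hi κ hκ] with T hT
  have j2 := abs_sub_le (spac f (unf l κ) T) (coeSpac N f) (∫ x, f x ∂μ)
  linarith

end Mx
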