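import Pool.Agent.LibMx40.M09
import Pool.Agent.LibTy70.F02

/-! Row M10: correlations of mixing graphs. Model: `typ_corr` in LibTy70/F02 without the measure part: `fixed_corr` with `n = 1`,
`b0_bound`, `mix_rate` with `f A = pcorr N p f (phases (sy A).1)` (`pcorr_lip`, Lipschitz constant
`(2 (N Q) + 1)^(p+1) L N ≤ (3 Q)^(p+1) L N^(p+2)`), the same for `pcorr N (2p+1) (Ty.tprod R)`, `goe_corr` for both. -/

open MeasureTheory Set Filter Topology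

namespace Mx

open QGr Ty COE

/-- The rate for a statistic with polynomial Lipschitz constant. -/
theorem M10_rate {N Q : ℕ} (hN : 0 < N) (hQ : 0 < Q) (k : ℕ) (L s : ℝ) (hL : 0 ≤ L) (hs : 0 ≤ s) :
    ((2 * (N * Q : ℕ) + 1) ^ k * L * N) * s * (Real.pi * √N) ≤
      4 * L * (3 * Q) ^ k * (N : ℝ) ^ (k + 2) * s := by
  have hNR : (1 : ℝ) ≤ N := by exact_mod_cast hN
  have hQR : (1 : ℝ) ≤ Q := by exact_mod_cast hQ
  have e1 : (2 * ((N * Q : ℕ) : ℝ) + 1) ^ k ≤ (3 * Q) ^ k * (N : ℝ) ^ k := by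
    rw [← mul_pow]
    refine pow_le_pow_left₀ (by positivity) ?_ _
    push_cast
    nlinarith
  have h1 : √(N : ℝ) ≤ N := by
    rw [Real.sqrt_le_iff]
    constructor
    · linarith
    · nlinarith
  have h2 : Real.pi * √N ≤ 4 * N :=
    mul_le_mul Real.pi_le_four h1 (Real.sqrt_nonneg _) (by norm_num)
  have hLN : 0 ≤ L * N * s := by positivity
  calc ((2 * (N * Q : ℕ) + 1) ^ k * L * N) * s * (Real.pi * √N)
      = (2 * (N * Q : ℕ) + 1) ^ k * (L * N * s) * (Real.pi * √N) := by ring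
    _ ≤ ((3 * Q) ^ k * (N : ℝ) ^ k) * (L * N * s) * (4 * N) := by
        refine mul_le_mul (mul_le_mul_of_nonneg_right e1 hLN) h2 (by positivity) (by positivity)
    _ = 4 * L * (3 * Q) ^ k * (N : ℝ) ^ (k + 2) * s := by ring

theorem mix_corr (a b : ℝ) (ha : 0 < a) (hab : a ≤ b) (p : ℕ) (f : (Fin (p + 1) → ℝ) → ℝ)
    (L B : ℝ) (hL0 : 0 ≤ L) (hL : ∀ u v, |f u - f v| ≤ L * dist u v)
    (hB : ∀ v, (∃ i, B < |v i|) → f v = 0) (ε : ℝ) (hε : 0 < ε) :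
    ∃ (C : ℝ) (N₀ : ℕ), ∀ N : ℕ, N₀ ≤ N → Even N → ∀ (O : ℕ → Orth N) (w m : ℕ), Meets m w O →
      C * w * Real.log N ≤ m → ∀ l : Fin (m + 1) → Fin N → ℝ, (∀ j i, l j i ∈ Icc a b) →
      LinearIndependent ℚ (fun q : Fin (m + 1) × Fin N => l q.1 q.2) →
      ∀ κ, IsLevels N m O l κ → ∀ᶠ T : ℝ in atTop,
        |corr p f (unf l κ) T - ∫ v, f v * gR (Fin.cons 0 v : Fin (p + 2) → ℝ)| ≤ ε := by
  have hf := f02_cont f L hL0 hL
  have hK := SPA_bd p f L B hL0 hL hB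
  obtain ⟨C₁, R, N₁, hC₁, hR, H₁⟩ := fixed_corr a b ha hab p f L _ B hL0 hL hK hB
  obtain ⟨t1, t2, t3⟩ := tprod_bd R hR (2 * p + 1 + 1)
  set L₂ : ℝ := ((2 * p + 1 + 1 : ℕ) : ℝ) / (2 * R) with hL₂
  have hL₂0 : 0 ≤ L₂ := by positivity
  have htc : Continuous (Ty.tprod R : (Fin (2 * p + 1 + 1) → ℝ) → ℝ) := f02_cont _ L₂ hL₂0 t3
  obtain ⟨C₄, H₄⟩ := goe_corr (2 * p + 1) (Ty.tprod R) htc (4 * R) t2
  obtain ⟨C₅, H₅⟩ := goe_corr p f hf B hB
  obtain ⟨Q, hQ⟩ : ∃ Q : ℕ, max B (4 * R) < Q := exists_nat_gt _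
  have hQB : B < Q := lt_of_le_of_lt (le_max_left _ _) hQ
  have hQR : 4 * R < Q := lt_of_le_of_lt (le_max_right _ _) hQ
  have hQ0 : 0 < Q := by
    have : (0 : ℝ) < Q := lt_trans (by positivity) hQR
    exact_mod_cast this
  set v : ℝ := ∫ v, f v * gR (Fin.cons 0 v : Fin (p + 2) → ℝ) with hv
  set v₄ : ℝ := ∫ v, Ty.tprod R v * gR (Fin.cons 0 v : Fin (2 * p + 1 + 2) → ℝ) with hv₄
  set D : ℝ := |v₄| + |C₄| + 1 with hD
  have hD0 : 0 < D := by positivity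
  set τ : ℝ := ε / (4 * (C₁ + 1) * (1 + D)) with hτ
  have hτ0 : 0 < τ := by positivity
  set δ₂ : ℝ := ε * τ / (4 * (C₁ + 1)) with hδ₂
  have hδ₂0 : 0 < δ₂ := by positivity
  have hC₁' : C₁ / (C₁ + 1) ≤ 1 := (div_le_one (by linarith)).2 (by linarith)
  have e1 : C₁ * (τ * (1 + D)) ≤ ε / 4 := by
    have : C₁ * (τ * (1 + D)) = C₁ / (C₁ + 1) * (ε / 4) := by rw [hτ]; field_simp
    rw [this]
    nlinarith
  have e2 : C₁ * (1 / τ * δ₂) ≤ ε / 4 := by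
    have : C₁ * (1 / τ * δ₂) = C₁ / (C₁ + 1) * (ε / 4) := by rw [hδ₂]; field_simp
    rw [this]
    nlinarith
  obtain ⟨Ca, Na, hCa, Ha⟩ := rate_small (p + 1 + 2) (4 * L * (3 * Q) ^ (p + 1)) (ε / 8)
    (by linarith)
  obtain ⟨Cb, Nb, hCb, Hb⟩ := lin_small (9 * ((b - a) / a) ^ 2) δ₂ hδ₂0
  obtain ⟨Cc, Nc, hCc, Hc⟩ := rate_small (2 * p + 1 + 1 + 2) (4 * L₂ * (3 * Q) ^ (2 * p + 1 + 1)) 1
    one_pos
  refine ⟨max (max Ca Cb) Cc, max (max (max N₁ 2) (max Na Nb)) (max Nc (2 * ⌈8 * |C₅| / ε⌉₊)),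
    fun N hN hE O w m hO hm l hl hi κ hκ => ?_⟩
  have hN' : max (max N₁ 2) (max Na Nb) ≤ N := (le_max_left _ _).trans hN
  have hN'' : max Nc (2 * ⌈8 * |C₅| / ε⌉₊) ≤ N := (le_max_right _ _).trans hN
  have hN1 : N₁ ≤ N := (le_max_left _ _).trans ((le_max_left _ _).trans hN')
  have hN2 : 2 ≤ N := (le_max_right _ _).trans ((le_max_left _ _).trans hN')
  have hNa : Na ≤ N := (le_max_left _ _).trans ((le_max_right _ _).trans hN')
  have hNb : Nb ≤ N := (le_max_right _ _).trans ((le_max_right _ _).trans hN')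
  have hNc : Nc ≤ N := (le_max_left _ _).trans hN''
  have hNd : 2 * ⌈8 * |C₅| / ε⌉₊ ≤ N := (le_max_right _ _).trans hN''
  have hN0 : 0 < N := by omega
  have hNR : (1 : ℝ) ≤ N := by exact_mod_cast (by omega : 1 ≤ N)
  have hw := meets_pos hN2 O hO
  have hwl : 0 ≤ (w : ℝ) * Real.log N := mul_nonneg (Nat.cast_nonneg _) (Real.log_nonneg hNR)
  have hle : ∀ C : ℝ, C ≤ max (max Ca Cb) Cc → C * w * Real.log N ≤ m := by
    intro C hC
    refine le_trans ?_ hm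
    rw [mul_assoc, mul_assoc]
    exact mul_le_mul_of_nonneg_right hC hwl
  have ra := Ha N hNa m w hw (hle Ca ((le_max_left _ _).trans (le_max_left _ _)))
  have rb := Hb N hNb m w hw (hle Cb ((le_max_right _ _).trans (le_max_left _ _)))
  have rc := Hc N hNc m w hw (hle Cc (le_max_right _ _))
  -- the two statistics
  obtain ⟨hc1, -, hc3⟩ := pcorr_lip hN0 p f L B hL0 hL hB hQB
  obtain ⟨hd1, -, hd3⟩ := pcorr_lip hN0 (2 * p + 1) (Ty.tprod R) L₂ (4 * R) hL₂0 t3 t2 hQR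
  have hrate := mix_rate O (fun A : Uni N => pcorr N p f (phases (sy A).1)) (hc1.comp sy_cont)
    ((2 * (N * Q : ℕ) + 1) ^ (p + 1) * L * N) (by positivity) hc3 m ((1 / 2 : ℝ) ^ (m / w))
    (fun x y => nomeet_pow O m w hw hO m 0 (by omega) x y)
  have hrate₄ := mix_rate O (fun A : Uni N => pcorr N (2 * p + 1) (Ty.tprod R) (phases (sy A).1))
    (hd1.comp sy_cont) ((2 * (N * Q : ℕ) + 1) ^ (2 * p + 1 + 1) * L₂ * N) (by positivity) hd3 m
    ((1 / 2 : ℝ) ^ (m / w)) (fun x y => nomeet_pow O m w hw hO m 0 (by omega) x y)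
  have hcoe : ∫ A : Uni N, pcorr N p f (phases (sy A).1) ∂(haarU N) = coeCorr N p f := rfl
  have hcoe₄ : ∫ A : Uni N, pcorr N (2 * p + 1) (Ty.tprod R) (phases (sy A).1) ∂(haarU N) =
    coeCorr N (2 * p + 1) (Ty.tprod R) := rfl
  rw [hcoe] at hrate
  rw [hcoe₄] at hrate₄
  have hrate2 := hrate.trans
    ((M10_rate hN0 hQ0 (p + 1) L _ hL0 (Real.sqrt_nonneg _)).trans ra)
  have hrate₄2 := hrate₄.trans
    ((M10_rate hN0 hQ0 (2 * p + 1 + 1) L₂ _ hL₂0 (Real.sqrt_nonneg _)).trans rc)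
  have hgoe : |coeCorr N p f - v| ≤ ε / 8 ∧ coeCorr N (2 * p + 1) (Ty.tprod R) ≤ |v₄| + |C₄| := by
    obtain ⟨r, hr⟩ := hE
    have hr2 : N = r * 2 := by omega
    subst hr2
    have hr0 : 0 < r := by omega
    have hr1 : (1 : ℝ) ≤ r := by exact_mod_cast hr0
    have k0 : 8 * |C₅| / ε ≤ r := by
      refine (Nat.le_ceil _).trans ?_
      have h1 : ⌈8 * |C₅| / ε⌉₊ ≤ r := by omega
      exact_mod_cast h1
    constructor
    · refine (H₅ r hr0).trans ?_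
      rw [div_le_iff₀ (by linarith)]
      rw [div_le_iff₀ hε] at k0
      have := le_abs_self C₅
      linarith
    · have k1 := (abs_le.1 (H₄ r hr0)).2
      have k2 : C₄ / r ≤ |C₄| := by
        rw [div_le_iff₀ (by linarith)]
        have := le_abs_self C₄
        have := abs_nonneg C₄
        nlinarith
      have := le_abs_self v₄
      linarith
  have hI₄ : ∫ θ, pcorr N (2 * p + 1) (Ty.tprod R) (phases (sy (tr O m θ)).1) ≤ D := by
    have h1 := (abs_le.1 hrate₄2).2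
    have h2 := hgoe.2
    rw [hD]
    linarith
  have hb0 := b0_bound hN0 O w hw a b ha hab m hO l hl
  have hb1 : 1 / N * ∫ θ, fro (An 1 (B0 O m l θ) (sy (tr O m θ))) ^ 2 ≤ δ₂ := by
    refine hb0.trans (le_trans (le_of_eq ?_) rb)
    ring
  have hε4 : 0 < ε / 4 := by positivity
  have hev := H₁ N hN1 O m l hl hi κ hκ 1 τ (ε / 4) le_rfl hτ0 hε4
  filter_upwards [hev] with T hT
  have j1 : C₁ * (τ * (1 + ∫ θ, pcorr N (2 * p + 1) (Ty.tprod R) (phases (sy (tr O m θ)).1)) +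
      1 / τ * (1 / N * ∫ θ, fro (An 1 (B0 O m l θ) (sy (tr O m θ))) ^ 2)) ≤ ε / 4 + ε / 4 := by
    rw [mul_add]
    refine add_le_add (le_trans ?_ e1) (le_trans ?_ e2)
    · exact mul_le_mul_of_nonneg_left (mul_le_mul_of_nonneg_left
        (add_le_add le_rfl hI₄) hτ0.le) hC₁
    · exact mul_le_mul_of_nonneg_left (mul_le_mul_of_nonneg_left hb1 (by positivity)) hC₁
  have j2 := abs_sub_le (corr p f (unf l κ) T)
    (∫ θ, pcorr N p f (phases (sy (tr O m θ)).1)) v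
  have j3 := abs_sub_le (∫ θ, pcorr N p f (phases (sy (tr O m θ)).1)) (coeCorr N p f) v
  have j4 : |(∫ θ, pcorr N p f (phases (sy (tr O m θ)).1)) - coeCorr N p f| ≤ ε / 8 := hrate2
  have j5 := hgoe.1
  linarith

end Mx
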