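import Pool.Agent.LibMx40.M01

/-! Row M11: vertices with overlap; the potential lemma.
`flat_meets`: for `x ≠ y`, `∑ u v, O u x ^2 O v y ^2 1_{u ≠ v} = 1 - ∑ u, O u x ^ 2 O u y ^ 2 ≤ 1 - γ`, so `nomeet O w j ≤ (1 - γ)^w ≤ exp (-γ w)`.
`pot_meet`: by induction on `w`, `∑ i < w, nomeet O i j x y ≤ g j x y` for `x ≠ y` (and `= 0` for `x = y`), and `nomeet_anti`. -/

open MeasureTheory Set Filter Topology

namespace Mx

open QGr Ty

theorem M11_col {N : ℕ} (O : Orth N) (x : Fin N) : ∑ u, O.1 u x ^ 2 = 1 := by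
  have h := O.2
  rw [Matrix.mem_orthogonalGroup_iff'] at h
  have h2 := congrFun (congrFun h x) x
  rw [Matrix.mul_apply, Matrix.one_apply_eq] at h2
  rw [← h2]
  refine Finset.sum_congr rfl fun u _ => ?_
  simp [sq]

theorem M11_diag {N : ℕ} (O : ℕ → Orth N) (w j : ℕ) (x : Fin N) : nomeet O w j x x = 0 := by
  cases w <;> simp [nomeet]

theorem M11_pow {N : ℕ} (O : ℕ → Orth N) (m : ℕ) (γ : ℝ)
    (h : ∀ j, j < m → ∀ x y, γ ≤ ∑ z, (O j).1 z x ^ 2 * (O j).1 z y ^ 2) (w : ℕ) :
    ∀ j, j + w ≤ m → ∀ x y, nomeet O w j x y ≤ (1 - γ) ^ w := by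
  induction w with
  | zero =>
    intro j _ x y
    simp only [nomeet, pow_zero]
    split_ifs <;> norm_num
  | succ w ih =>
    intro j hj x y
    have hγ : γ ≤ 1 := by
      refine (h j (by omega) x x).trans ?_
      rw [← M11_col (O j) x]
      refine Finset.sum_le_sum fun z _ => ?_
      have h1 : (O j).1 z x ^ 2 ≤ 1 := by
        rw [← M11_col (O j) x]
        exact Finset.single_le_sum (f := fun u => (O j).1 u x ^ 2) (fun i _ => sq_nonneg _)
          (Finset.mem_univ z)
      nlinarith [sq_nonneg ((O j).1 z x)]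
    by_cases hxy : x = y
    · subst hxy
      rw [M11_diag]
      exact pow_nonneg (by linarith) _
    · simp only [nomeet, if_neg hxy]
      have h1 : ∀ u v, (O j).1 u x ^ 2 * (O j).1 v y ^ 2 * nomeet O w (j + 1) u v ≤
          (O j).1 u x ^ 2 * (O j).1 v y ^ 2 * (1 - γ) ^ w -
            (if v = u then (O j).1 u x ^ 2 * (O j).1 v y ^ 2 * (1 - γ) ^ w else 0) := by
        intro u v
        by_cases huv : v = u
        · subst huv
          rw [M11_diag, if_pos rfl]
          linarith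
        · rw [if_neg huv, sub_zero]
          exact mul_le_mul_of_nonneg_left (ih (j + 1) (by omega) u v) (by positivity)
      calc ∑ u, ∑ v, (O j).1 u x ^ 2 * (O j).1 v y ^ 2 * nomeet O w (j + 1) u v
          ≤ ∑ u, ∑ v, ((O j).1 u x ^ 2 * (O j).1 v y ^ 2 * (1 - γ) ^ w -
            (if v = u then (O j).1 u x ^ 2 * (O j).1 v y ^ 2 * (1 - γ) ^ w else 0)) :=
          Finset.sum_le_sum fun u _ => Finset.sum_le_sum fun v _ => h1 u v
        _ = (1 - ∑ u, (O j).1 u x ^ 2 * (O j).1 u y ^ 2) * (1 - γ) ^ w := by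
          simp only [Finset.sum_sub_distrib, Finset.sum_ite_eq', Finset.mem_univ, if_true]
          rw [sub_mul, Finset.sum_mul]
          congr 1
          simp only [← Finset.sum_mul, ← Finset.mul_sum]
          rw [M11_col, M11_col]
          ring
        _ ≤ (1 - γ) * (1 - γ) ^ w := by
          refine mul_le_mul_of_nonneg_right ?_ (pow_nonneg (by linarith) _)
          have := h j (by omega) x y
          linarith
        _ = (1 - γ) ^ (w + 1) := by ring

theorem flat_meets {N : ℕ} (O : ℕ → Orth N) (m : ℕ) (γ : ℝ) (h0 : 0 < γ)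
    (h : ∀ j, j < m → ∀ x y, γ ≤ ∑ z, (O j).1 z x ^ 2 * (O j).1 z y ^ 2) : Meets m ⌈1 / γ⌉₊ O := by
  intro j hj x y
  refine (M11_pow O m γ h _ j hj x y).trans ?_
  set w := ⌈1 / γ⌉₊ with hw
  have hw1 : 1 / γ ≤ (w : ℝ) := Nat.le_ceil _
  have hwp : 0 < w := Nat.ceil_pos.2 (by positivity)
  have hγ : γ ≤ 1 := by
    refine (h j (by omega) x x).trans ?_
    rw [← M11_col (O j) x]
    refine Finset.sum_le_sum fun z _ => ?_
    have h1 : (O j).1 z x ^ 2 ≤ 1 := by
      rw [← M11_col (O j) x]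
      exact Finset.single_le_sum (f := fun u => (O j).1 u x ^ 2) (fun i _ => sq_nonneg _)
        (Finset.mem_univ z)
    nlinarith [sq_nonneg ((O j).1 z x)]
  have h1 : (1 - γ) ^ w ≤ Real.exp (-γ) ^ w := by
    refine pow_le_pow_left₀ (by linarith) ?_ w
    have := Real.add_one_le_exp (-γ)
    linarith
  refine h1.trans ?_
  rw [← Real.exp_nat_mul]
  have h2 : (w : ℝ) * -γ ≤ -1 := by
    rw [div_le_iff₀ h0] at hw1
    linarith
  refine (Real.exp_le_exp.2 h2).trans ?_
  rw [Real.exp_neg, inv_le_comm₀ (Real.exp_pos _) (by norm_num)]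
  have := Real.add_one_le_exp (1 : ℝ)
  norm_num at this ⊢
  linarith

theorem M11_sum {N : ℕ} (O : ℕ → Orth N) (g : ℕ → Fin N → Fin N → ℝ)
    (h0 : ∀ j x y, 0 ≤ g j x y)
    (h : ∀ j x y, x ≠ y → ∑ u, ∑ v, (O j).1 u x ^ 2 * (O j).1 v y ^ 2 *
      (if u = v then 0 else g (j + 1) u v) ≤ g j x y - 1) (w : ℕ) :
    ∀ (j : ℕ) (x y : Fin N), ∑ i ∈ Finset.range w, nomeet O i j x y ≤ g j x y := by
  induction w with
  | zero => intro j x y; simpa using h0 j x y
  | succ w ih =>
    intro j x y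
    by_cases hxy : x = y
    · subst hxy
      simp only [M11_diag, Finset.sum_const_zero]
      exact h0 j x x
    · rw [Finset.sum_range_succ']
      have e0 : nomeet O 0 j x y = 1 := by simp [nomeet, hxy]
      have e1 : ∀ i, nomeet O (i + 1) j x y =
          ∑ u, ∑ v, (O j).1 u x ^ 2 * (O j).1 v y ^ 2 * nomeet O i (j + 1) u v := by
        intro i
        simp only [nomeet, if_neg hxy]
      rw [e0]
      simp only [e1]
      have e2 : ∑ i ∈ Finset.range w, ∑ u, ∑ v,
          (O j).1 u x ^ 2 * (O j).1 v y ^ 2 * nomeet O i (j + 1) u v =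
          ∑ u, ∑ v, (O j).1 u x ^ 2 * (O j).1 v y ^ 2 *
            ∑ i ∈ Finset.range w, nomeet O i (j + 1) u v := by
        rw [Finset.sum_comm]
        refine Finset.sum_congr rfl fun u _ => ?_
        rw [Finset.sum_comm]
        refine Finset.sum_congr rfl fun v _ => ?_
        rw [Finset.mul_sum]
      rw [e2]
      have e3 : ∑ u, ∑ v, (O j).1 u x ^ 2 * (O j).1 v y ^ 2 *
            ∑ i ∈ Finset.range w, nomeet O i (j + 1) u v ≤
          ∑ u, ∑ v, (O j).1 u x ^ 2 * (O j).1 v y ^ 2 *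
            (if u = v then 0 else g (j + 1) u v) := by
        refine Finset.sum_le_sum fun u _ => Finset.sum_le_sum fun v _ => ?_
        refine mul_le_mul_of_nonneg_left ?_ (by positivity)
        by_cases huv : u = v
        · subst huv
          simp only [M11_diag, Finset.sum_const_zero, if_true]
          exact le_refl _
        · rw [if_neg huv]
          exact ih (j + 1) u v
      have e4 := h j x y hxy
      linarith

theorem pot_meet {N : ℕ} (O : ℕ → Orth N) (g : ℕ → Fin N → Fin N → ℝ) (K : ℝ)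
    (h0 : ∀ j x y, 0 ≤ g j x y) (hK : ∀ j x y, g j x y ≤ K)
    (h : ∀ j x y, x ≠ y → ∑ u, ∑ v, (O j).1 u x ^ 2 * (O j).1 v y ^ 2 *
      (if u = v then 0 else g (j + 1) u v) ≤ g j x y - 1) (w j : ℕ) (x y : Fin N) :
    w * nomeet O w j x y ≤ K := by
  have h1 : (w : ℝ) * nomeet O w j x y ≤ ∑ i ∈ Finset.range w, nomeet O i j x y := by
    have h2 : ∑ i ∈ Finset.range w, nomeet O w j x y ≤ ∑ i ∈ Finset.range w, nomeet O i j x y := by
      refine Finset.sum_le_sum fun i hi => ?_
      exact nomeet_anti O i w j (Finset.mem_range.1 hi).le x y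
    simpa [Finset.sum_const, Finset.card_range, nsmul_eq_mul] using h2
  exact h1.trans ((M11_sum O g h0 h w j x y).trans (hK j x y))

end Mx
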