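import Pool.Agent.LibMx40.M11

/-! Row M12: the brick wall, averages.
`brick_orth`: `brick N j` is symmetric and its square is one (rows are `e_x` or `(e_x ± e_{x'}) / √2`).
`brick_avg`: squares of the entries of the column `x`: `1/2` at `x` and at its partner, or `1` at `x`. -/

open MeasureTheory Set Filter Topology

namespace Mx

open QGr Ty

theorem M12_app (N j : ℕ) (x y : Fin N) : brick N j x y =
    if (x.1 + 1 = y.1 ∧ (x.1 + j) % 2 = 0) ∨ (y.1 + 1 = x.1 ∧ (y.1 + j) % 2 = 0) then 1 / √2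
    else if x.1 = y.1 then
      (if (x.1 + j) % 2 = 0 then (if x.1 + 1 < N then 1 / √2 else 1)
        else (if x.1 = 0 then 1 else -(1 / √2)))
    else 0 := by
  simp only [brick, Matrix.of_apply, Nat.even_iff, Fin.ext_iff]

theorem M12_up (N j : ℕ) (x x' y : Fin N) (hx : (x.1 + j) % 2 = 0) (h : x'.1 = x.1 + 1) :
    brick N j x y = (if y = x then 1 / √2 else 0) + (if y = x' then 1 / √2 else 0) := by
  rw [M12_app]
  have := x'.2
  simp only [Fin.ext_iff]
  split_ifs <;> first
    | (exfalso; omega)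
    | simp

theorem M12_down (N j : ℕ) (x x' y : Fin N) (hx : (x.1 + j) % 2 = 1) (h : x.1 = x'.1 + 1) :
    brick N j x y = (if y = x then -(1 / √2) else 0) + (if y = x' then 1 / √2 else 0) := by
  rw [M12_app]
  simp only [Fin.ext_iff]
  split_ifs <;> first
    | (exfalso; omega)
    | simp

theorem M12_no (N j : ℕ) (x y : Fin N) (h : ((x.1 + j) % 2 = 0 ∧ N ≤ x.1 + 1) ∨
    ((x.1 + j) % 2 = 1 ∧ x.1 = 0)) :
    brick N j x y = if y = x then 1 else 0 := by
  rw [M12_app]
  have := y.2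
  simp only [Fin.ext_iff]
  split_ifs <;> first
    | (exfalso; omega)
    | simp

theorem M12_symm (N j : ℕ) (x y : Fin N) : brick N j x y = brick N j y x := by
  rw [M12_app, M12_app]
  split_ifs <;> first
    | (exfalso; omega)
    | rfl

theorem M12_cases (N j : ℕ) (x : Fin N) :
    ((x.1 + j) % 2 = 0 ∧ ∃ x' : Fin N, x'.1 = x.1 + 1) ∨
    ((x.1 + j) % 2 = 1 ∧ ∃ x' : Fin N, x.1 = x'.1 + 1) ∨
    (((x.1 + j) % 2 = 0 ∧ N ≤ x.1 + 1) ∨ ((x.1 + j) % 2 = 1 ∧ x.1 = 0)) := by
  have hx := x.2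
  rcases Nat.mod_two_eq_zero_or_one (x.1 + j) with h | h
  · by_cases h2 : x.1 + 1 < N
    · exact Or.inl ⟨h, ⟨x.1 + 1, h2⟩, rfl⟩
    · exact Or.inr (Or.inr (Or.inl ⟨h, by omega⟩))
  · by_cases h2 : x.1 = 0
    · exact Or.inr (Or.inr (Or.inr ⟨h, h2⟩))
    · exact Or.inr (Or.inl ⟨h, ⟨x.1 - 1, by omega⟩, by simp; omega⟩)

theorem M12_half : (1 / √2 : ℝ) * (1 / √2) = 1 / 2 := by
  rw [div_mul_div_comm, Real.mul_self_sqrt (by norm_num)]
  norm_num

theorem M12_mul (N j : ℕ) (x z : Fin N) :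
    ∑ y, brick N j x y * brick N j z y = if x = z then 1 else 0 := by
  have hh := M12_half
  rcases M12_cases N j x with ⟨hx, x', hx'⟩ | ⟨hx, x', hx'⟩ | hx
  · simp only [M12_up N j x x' _ hx hx', add_mul, ite_mul, zero_mul, Finset.sum_add_distrib,
      Finset.sum_ite_eq', Finset.mem_univ, if_true]
    rw [M12_symm N j z x, M12_symm N j z x', M12_up N j x x' z hx hx',
      M12_down N j x' x z (by omega) hx']
    by_cases h1 : z = x
    · subst h1
      have h2 : z ≠ x' := by intro h; rw [Fin.ext_iff] at h; omega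
      simp only [if_true, if_neg h2]
      linarith
    · by_cases h2 : z = x'
      · subst h2
        simp only [if_true, if_neg h1, if_neg (Ne.symm h1)]
        linarith
      · simp only [if_neg h1, if_neg h2, if_neg (Ne.symm h1)]
        ring
  · simp only [M12_down N j x x' _ hx hx', add_mul, ite_mul, zero_mul, Finset.sum_add_distrib,
      Finset.sum_ite_eq', Finset.mem_univ, if_true]
    rw [M12_symm N j z x, M12_symm N j z x', M12_down N j x x' z hx hx',
      M12_up N j x' x z (by omega) hx']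
    by_cases h1 : z = x
    · subst h1
      have h2 : z ≠ x' := by intro h; rw [Fin.ext_iff] at h; omega
      simp only [if_true, if_neg h2]
      linarith
    · by_cases h2 : z = x'
      · subst h2
        simp only [if_true, if_neg h1, if_neg (Ne.symm h1)]
        linarith
      · simp only [if_neg h1, if_neg h2, if_neg (Ne.symm h1)]
        ring
  · simp only [M12_no N j x _ hx, ite_mul, zero_mul, one_mul, Finset.sum_ite_eq',
      Finset.mem_univ, if_true]
    rw [M12_symm N j z x, M12_no N j x z hx]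
    simp only [eq_comm]

theorem brick_orth (N j : ℕ) : brick N j ∈ Matrix.orthogonalGroup (Fin N) ℝ := by
  rw [Matrix.mem_orthogonalGroup_iff]
  ext x z
  rw [Matrix.mul_apply, Matrix.one_apply]
  have h := M12_mul N j x z
  rw [← h]
  refine Finset.sum_congr rfl fun y _ => ?_
  simp

theorem M12_avg2 {N : ℕ} (f φ : Fin N → ℝ) (x x' : Fin N) (hxx : x ≠ x') (c d : ℝ)
    (hf : ∀ u, f u = (if u = x then c else 0) + (if u = x' then d else 0)) (hc : c ^ 2 = 1 / 2)
    (hd : d ^ 2 = 1 / 2) : ∑ u, f u ^ 2 * φ u = (φ x + φ x') / 2 := by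
  have h : ∀ u, f u ^ 2 * φ u = (if u = x then φ u / 2 else 0) + (if u = x' then φ u / 2 else 0) := by
    intro u
    rw [hf u]
    by_cases h1 : u = x
    · subst h1
      simp only [if_true, if_neg hxx, add_zero, hc]
      ring
    · by_cases h2 : u = x'
      · subst h2
        simp only [if_true, if_neg h1, zero_add, hd]
        ring
      · simp only [if_neg h1, if_neg h2]
        ring
  simp only [h, Finset.sum_add_distrib, Finset.sum_ite_eq', Finset.mem_univ, if_true]
  ring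

/-- `x` is coupled to `x + 1`. -/
theorem brick_up (N j : ℕ) (x : Fin N) (hx : Even (x.1 + j)) (h : x.1 + 1 < N) (φ : Fin N → ℝ) :
    ∑ u, brick N j u x ^ 2 * φ u = (φ x + φ ⟨x.1 + 1, h⟩) / 2 := by
  have hx' := Nat.even_iff.1 hx
  refine M12_avg2 (fun u => brick N j u x) φ x ⟨x.1 + 1, h⟩ ?_ (1 / √2) (1 / √2) (fun u => ?_) ?_ ?_
  · intro h1; rw [Fin.ext_iff] at h1; simp at h1
  · show brick N j u x = _
    rw [M12_symm N j u x]
    exact M12_up N j x ⟨x.1 + 1, h⟩ u hx' rfl
  · rw [sq]; exact M12_half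
  · rw [sq]; exact M12_half

/-- `x` is coupled to `x - 1`. -/
theorem brick_down (N j : ℕ) (x : Fin N) (hx : ¬ Even (x.1 + j)) (h : 0 < x.1) (φ : Fin N → ℝ) :
    ∑ u, brick N j u x ^ 2 * φ u = (φ x + φ ⟨x.1 - 1, by omega⟩) / 2 := by
  have hx' : (x.1 + j) % 2 = 1 := by
    rw [Nat.even_iff] at hx; omega
  refine M12_avg2 (fun u => brick N j u x) φ x ⟨x.1 - 1, by omega⟩ ?_ (-(1 / √2)) (1 / √2)
    (fun u => ?_) ?_ ?_
  · intro h1; rw [Fin.ext_iff] at h1; simp at h1; omega
  · show brick N j u x = _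
    rw [M12_symm N j u x]
    exact M12_down N j x ⟨x.1 - 1, by omega⟩ u hx' (by simp; omega)
  · rw [neg_sq, sq]; exact M12_half
  · rw [sq]; exact M12_half

/-- `x` is not coupled. -/
theorem brick_no (N j : ℕ) (x : Fin N) (h : (Even (x.1 + j) ∧ N ≤ x.1 + 1) ∨
    (¬ Even (x.1 + j) ∧ x.1 = 0)) (φ : Fin N → ℝ) : ∑ u, brick N j u x ^ 2 * φ u = φ x := by
  have h' : ((x.1 + j) % 2 = 0 ∧ N ≤ x.1 + 1) ∨ ((x.1 + j) % 2 = 1 ∧ x.1 = 0) := by
    rw [Nat.even_iff] at h; omega
  have h1 : ∀ u, brick N j u x ^ 2 * φ u = if u = x then φ u else 0 := by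
    intro u
    rw [M12_symm N j u x, M12_no N j x u h']
    split_ifs <;> simp
  simp only [h1, Finset.sum_ite_eq', Finset.mem_univ, if_true]

end Mx
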