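import Pool.Agent.LibMx40.M12

/-! Row M13: the brick wall, drift. -/

open MeasureTheory Set Filter Topology

namespace Mx

open QGr Ty

/-- The sum of the channel and its partner. -/
noncomputable def ej (j : ℕ) {N : ℕ} (x : Fin N) : ℝ :=
  if Even (x.1 + j) then 2 * (x.1 : ℝ) + 1 else 2 * (x.1 : ℝ) - 1

/-- The potential. -/
noncomputable def gp (j : ℕ) {N : ℕ} (x y : Fin N) : ℝ :=
  2 * N + N * |ej j x - ej j y| / 2 - (ej j x - ej j y) ^ 2 / 8

theorem M13_even {j : ℕ} {N : ℕ} {x : Fin N} (h : Even (x.1 + j)) : ej j x = 2 * (x.1 : ℝ) + 1 := by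
  unfold ej
  rw [if_pos h]

theorem M13_odd {j : ℕ} {N : ℕ} {x : Fin N} (h : ¬ Even (x.1 + j)) :
    ej j x = 2 * (x.1 : ℝ) - 1 := by
  unfold ej
  rw [if_neg h]

theorem M13_range (j : ℕ) {N : ℕ} (x : Fin N) : -1 ≤ ej j x ∧ ej j x ≤ 2 * (N : ℝ) - 1 := by
  have h1 : (x.1 : ℝ) + 1 ≤ N := by exact_mod_cast x.2
  have h2 : (0 : ℝ) ≤ x.1 := Nat.cast_nonneg _
  by_cases h : Even (x.1 + j)
  · rw [M13_even h]
    constructor <;> linarith
  · rw [M13_odd h]
    constructor <;> linarith

theorem M13_four (j : ℕ) {N : ℕ} (x y : Fin N) : ∃ k : ℤ, ej j x - ej j y = 4 * (k : ℝ) := by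
  by_cases h : Even (x.1 + j) <;> by_cases h' : Even (y.1 + j)
  · obtain ⟨a, ha⟩ := h
    obtain ⟨b, hb⟩ := h'
    rw [M13_even ⟨a, ha⟩, M13_even ⟨b, hb⟩]
    refine ⟨(a : ℤ) - b, ?_⟩
    have h1 : (x.1 : ℝ) + j = a + a := by exact_mod_cast ha
    have h2 : (y.1 : ℝ) + j = b + b := by exact_mod_cast hb
    push_cast
    linarith
  · obtain ⟨a, ha⟩ := h
    rw [M13_even ⟨a, ha⟩, M13_odd h']
    obtain ⟨b, hb⟩ := Nat.not_even_iff_odd.1 h'
    refine ⟨(a : ℤ) - b, ?_⟩
    have h1 : (x.1 : ℝ) + j = a + a := by exact_mod_cast ha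
    have h2 : (y.1 : ℝ) + j = 2 * b + 1 := by exact_mod_cast hb
    push_cast
    linarith
  · obtain ⟨b, hb⟩ := h'
    rw [M13_odd h, M13_even ⟨b, hb⟩]
    obtain ⟨a, ha⟩ := Nat.not_even_iff_odd.1 h
    refine ⟨(a : ℤ) - b, ?_⟩
    have h1 : (x.1 : ℝ) + j = 2 * a + 1 := by exact_mod_cast ha
    have h2 : (y.1 : ℝ) + j = b + b := by exact_mod_cast hb
    push_cast
    linarith
  · rw [M13_odd h, M13_odd h']
    obtain ⟨a, ha⟩ := Nat.not_even_iff_odd.1 h
    obtain ⟨b, hb⟩ := Nat.not_even_iff_odd.1 h'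
    refine ⟨(a : ℤ) - b, ?_⟩
    have h1 : (x.1 : ℝ) + j = 2 * a + 1 := by exact_mod_cast ha
    have h2 : (y.1 : ℝ) + j = 2 * b + 1 := by exact_mod_cast hb
    push_cast
    linarith

theorem gp_bd (j : ℕ) {N : ℕ} (hN : Even N) (x y : Fin N) :
    0 ≤ gp j x y ∧ gp j x y ≤ (N * (N + 4) : ℝ) / 2 := by
  obtain ⟨h1, h2⟩ := M13_range j x
  obtain ⟨h3, h4⟩ := M13_range j y
  have hN0 : (0 : ℝ) ≤ N := Nat.cast_nonneg _
  unfold gp
  set d := ej j x - ej j y with hd
  have h5 : |d| ≤ 2 * N := by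
    rw [abs_le]
    constructor <;> linarith
  have h6 : 0 ≤ |d| := abs_nonneg d
  rw [← sq_abs d]
  constructor
  · nlinarith
  · nlinarith [sq_nonneg (|d| - 2 * N)]

/-- one step of a walker -/
theorem M13_step {N : ℕ} (j : ℕ) (x : Fin N) : ∃ x1 x2 : Fin N,
    (∀ φ : Fin N → ℝ, ∑ u, brick N j u x ^ 2 * φ u = (φ x1 + φ x2) / 2) ∧
    ((2 * (x1.1 : ℝ) + 1 = ej j x ∧ x2.1 = x1.1 + 1 ∧ ej (j + 1) x1 = ej j x - 2 ∧
        ej (j + 1) x2 = ej j x + 2) ∨
      (x1 = x2 ∧ ((ej j x = -1 ∧ ej (j + 1) x1 = 1 ∧ x.1 = 0) ∨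
        (ej j x = 2 * (N : ℝ) - 1 ∧ ej (j + 1) x1 = 2 * (N : ℝ) - 3 ∧ x.1 + 1 = N)))) := by
  by_cases h : Even (x.1 + j)
  · have hodd : ¬ Even (x.1 + (j + 1)) := by
      rw [← add_assoc, Nat.even_add_one]
      exact fun h' => h' h
    by_cases h1 : x.1 + 1 < N
    · refine ⟨x, ⟨x.1 + 1, h1⟩, brick_up N j x h h1, Or.inl ⟨(M13_even h).symm, rfl, ?_, ?_⟩⟩
      · rw [M13_odd hodd, M13_even h]
        ring
      · have h2 : Even ((⟨x.1 + 1, h1⟩ : Fin N).1 + (j + 1)) := by
          change Even (x.1 + 1 + (j + 1))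
          rw [show x.1 + 1 + (j + 1) = x.1 + j + 2 by ring]
          exact h.add (by decide)
        rw [M13_even h2, M13_even h]
        push_cast
        ring
    · have hx : x.1 + 1 = N := by
        have := x.2
        omega
      have hxr : (x.1 : ℝ) + 1 = N := by exact_mod_cast hx
      refine ⟨x, x, fun φ => ?_, Or.inr ⟨rfl, Or.inr ⟨?_, ?_, hx⟩⟩⟩
      · rw [brick_no N j x (Or.inl ⟨h, by omega⟩)]
        ring
      · rw [M13_even h]
        linarith
      · rw [M13_odd hodd]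
        linarith
  · have heven : Even (x.1 + (j + 1)) := by
      rw [← add_assoc, Nat.even_add_one]
      exact h
    by_cases h1 : 0 < x.1
    · have hlt : x.1 - 1 < N := by
        have := x.2
        omega
      have hc : ((x.1 - 1 : ℕ) : ℝ) = (x.1 : ℝ) - 1 := by
        rw [Nat.cast_sub h1, Nat.cast_one]
      refine ⟨⟨x.1 - 1, hlt⟩, x, fun φ => ?_, Or.inl ⟨?_, ?_, ?_, ?_⟩⟩
      · rw [brick_down N j x h h1]
        ring
      · change 2 * ((x.1 - 1 : ℕ) : ℝ) + 1 = ej j x
        rw [M13_odd h, hc]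
        ring
      · change x.1 = x.1 - 1 + 1
        omega
      · have h2 : ¬ Even ((⟨x.1 - 1, hlt⟩ : Fin N).1 + (j + 1)) := by
          change ¬ Even (x.1 - 1 + (j + 1))
          rw [show x.1 - 1 + (j + 1) = x.1 + j by omega]
          exact h
        rw [M13_odd h2, M13_odd h]
        change 2 * ((x.1 - 1 : ℕ) : ℝ) - 1 = _
        rw [hc]
        ring
      · rw [M13_even heven, M13_odd h]
        ring
    · have hx : x.1 = 0 := by omega
      have hxr : (x.1 : ℝ) = 0 := by exact_mod_cast hx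
      refine ⟨x, x, fun φ => ?_, Or.inr ⟨rfl, Or.inl ⟨?_, ?_, hx⟩⟩⟩
      · rw [brick_no N j x (Or.inr ⟨h, hx⟩)]
        ring
      · rw [M13_odd h, hxr]
        ring
      · rw [M13_even heven, hxr]
        ring

theorem M13_G {N j : ℕ} (u v : Fin N) {s : ℝ} (hs : ej j u - ej j v = s) :
    gp j u v = 2 * N + N * |s| / 2 - s ^ 2 / 8 := by
  unfold gp
  rw [hs]

theorem gp_drift {N : ℕ} (hN : Even N) (j : ℕ) (x y : Fin N) (hxy : x ≠ y) :
    ∑ u, ∑ v, brick N j u x ^ 2 * brick N j v y ^ 2 * (if u = v then 0 else gp (j + 1) u v) ≤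
      gp j x y - 1 := by
  obtain ⟨x1, x2, hx, hxc⟩ := M13_step j x
  obtain ⟨y1, y2, hy, hyc⟩ := M13_step j y
  have hN0 : (0 : ℝ) ≤ N := Nat.cast_nonneg _
  set ψ : Fin N → Fin N → ℝ := fun u v => if u = v then 0 else gp (j + 1) u v with hψ
  have hle : ∀ u v, ψ u v ≤ gp (j + 1) u v := by
    intro u v
    rw [hψ]
    beta_reduce
    split_ifs
    · exact (gp_bd (j + 1) hN u v).1
    · exact le_rfl
  have hsum : ∑ u, ∑ v, brick N j u x ^ 2 * brick N j v y ^ 2 *
      (if u = v then 0 else gp (j + 1) u v) =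
      (ψ x1 y1 + ψ x1 y2 + ψ x2 y1 + ψ x2 y2) / 4 := by
    have h1 : ∀ u, ∑ v, brick N j u x ^ 2 * brick N j v y ^ 2 *
        (if u = v then 0 else gp (j + 1) u v) =
        brick N j u x ^ 2 * ((ψ u y1 + ψ u y2) / 2) := by
      intro u
      rw [← hy (ψ u), Finset.mul_sum]
      refine Finset.sum_congr rfl fun v _ => ?_
      rw [mul_assoc]
    rw [Finset.sum_congr rfl fun u _ => h1 u, hx (fun u => (ψ u y1 + ψ u y2) / 2)]
    ring
  rw [hsum]
  obtain ⟨k, hk⟩ := M13_four j x y
  obtain ⟨rx1, rx2⟩ := M13_range j x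
  obtain ⟨ry1, ry2⟩ := M13_range j y
  have hgxy := M13_G (j := j) x y hk
  rcases hxc with ⟨cx1, cx2, cx3, cx4⟩ | ⟨cx1, cx2⟩
  · rcases hyc with ⟨cy1, cy2, cy3, cy4⟩ | ⟨cy1, cy2⟩
    · -- both coupled
      by_cases hk0 : k = 0
      · -- the same pair
        have he : ej j x = ej j y := by
          rw [hk0] at hk
          push_cast at hk
          linarith
        have e1 : x1 = y1 := by
          apply Fin.ext
          have h1 : (x1.1 : ℝ) = y1.1 := by linarith
          exact_mod_cast h1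
        have e2 : x2 = y2 := by
          apply Fin.ext
          rw [cx2, cy2, e1]
        have p1 : ψ x1 y1 = 0 := by
          rw [hψ]
          beta_reduce
          rw [if_pos e1]
        have p2 : ψ x2 y2 = 0 := by
          rw [hψ]
          beta_reduce
          rw [if_pos e2]
        have p3 := (hle x1 y2).trans_eq (M13_G (j := j + 1) x1 y2 (s := -4) (by linarith))
        have p4 := (hle x2 y1).trans_eq (M13_G (j := j + 1) x2 y1 (s := 4) (by linarith))
        rw [hk0] at hgxy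
        push_cast at hgxy
        rw [abs_neg, abs_of_pos (by norm_num : (0 : ℝ) < 4)] at p3
        rw [abs_of_pos (by norm_num : (0 : ℝ) < 4)] at p4
        rw [mul_zero, abs_zero] at hgxy
        rw [hgxy, p1, p2]
        nlinarith
      · -- different pairs
        have p1 := (hle x1 y1).trans_eq (M13_G (j := j + 1) x1 y1 (s := 4 * (k : ℝ)) (by linarith))
        have p2 := (hle x2 y2).trans_eq (M13_G (j := j + 1) x2 y2 (s := 4 * (k : ℝ)) (by linarith))
        have p3 := (hle x1 y2).trans_eq (M13_G (j := j + 1) x1 y2 (s := 4 * (k : ℝ) - 4)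
          (by linarith))
        have p4 := (hle x2 y1).trans_eq (M13_G (j := j + 1) x2 y1 (s := 4 * (k : ℝ) + 4)
          (by linarith))
        rw [hgxy]
        have h7 : |4 * (k : ℝ) - 4| + |4 * (k : ℝ) + 4| = 2 * |4 * (k : ℝ)| := by
          rcases lt_or_gt_of_ne hk0 with hneg | hpos
          · have h8 : (k : ℝ) ≤ -1 := by exact_mod_cast (show k ≤ -1 by omega)
            rw [abs_of_nonpos (by linarith), abs_of_nonpos (by linarith),
              abs_of_nonpos (by linarith)]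
            ring
          · have h8 : (1 : ℝ) ≤ k := by exact_mod_cast (show 1 ≤ k by omega)
            rw [abs_of_nonneg (by linarith), abs_of_nonneg (by linarith),
              abs_of_nonneg (by linarith)]
            ring
        have h9 : (N : ℝ) * |4 * (k : ℝ) - 4| + N * |4 * (k : ℝ) + 4| =
            2 * (N * |4 * (k : ℝ)|) := by
          rw [← mul_add, h7]
          ring
        nlinarith
    · -- x coupled, y not
      have hx2 : (x2.1 : ℝ) + 1 ≤ N := by exact_mod_cast x2.2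
      have hx2' : (x2.1 : ℝ) = x1.1 + 1 := by exact_mod_cast cx2
      have hx1 : (0 : ℝ) ≤ x1.1 := Nat.cast_nonneg _
      subst cy1
      rcases cy2 with ⟨dy1, dy2, _⟩ | ⟨dy1, dy2, _⟩
      · -- y = 0
        have hk1 : 1 ≤ k := by
          have h8 : (0 : ℝ) < k := by linarith
          have h9 : (0 : ℤ) < k := by exact_mod_cast h8
          omega
        have hk2 : (1 : ℝ) ≤ k := by exact_mod_cast hk1
        have p1 := (hle x1 y1).trans_eq (M13_G (j := j + 1) x1 y1 (s := 4 * (k : ℝ) - 4)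
          (by linarith))
        have p2 := (hle x2 y1).trans_eq (M13_G (j := j + 1) x2 y1 (s := 4 * (k : ℝ))
          (by linarith))
        rw [abs_of_nonneg (by linarith)] at p1 p2 hgxy
        rw [hgxy]
        nlinarith
      · -- y = N - 1
        have hk1 : k ≤ -1 := by
          have h8 : (k : ℝ) < 0 := by linarith
          have h9 : k < (0 : ℤ) := by exact_mod_cast h8
          omega
        have hk2 : (k : ℝ) ≤ -1 := by exact_mod_cast hk1
        have p1 := (hle x1 y1).trans_eq (M13_G (j := j + 1) x1 y1 (s := 4 * (k : ℝ))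
          (by linarith))
        have p2 := (hle x2 y1).trans_eq (M13_G (j := j + 1) x2 y1 (s := 4 * (k : ℝ) + 4)
          (by linarith))
        rw [abs_of_nonpos (by linarith)] at p1 p2 hgxy
        rw [hgxy]
        nlinarith
  · rcases hyc with ⟨cy1, cy2, cy3, cy4⟩ | ⟨cy1, cy2⟩
    · -- y coupled, x not
      have hy2 : (y2.1 : ℝ) + 1 ≤ N := by exact_mod_cast y2.2
      have hy2' : (y2.1 : ℝ) = y1.1 + 1 := by exact_mod_cast cy2
      have hy1 : (0 : ℝ) ≤ y1.1 := Nat.cast_nonneg _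
      subst cx1
      rcases cx2 with ⟨dx1, dx2, _⟩ | ⟨dx1, dx2, _⟩
      · -- x = 0
        have hk1 : k ≤ -1 := by
          have h8 : (k : ℝ) < 0 := by linarith
          have h9 : k < (0 : ℤ) := by exact_mod_cast h8
          omega
        have hk2 : (k : ℝ) ≤ -1 := by exact_mod_cast hk1
        have p1 := (hle x1 y1).trans_eq (M13_G (j := j + 1) x1 y1 (s := 4 * (k : ℝ) + 4)
          (by linarith))
        have p2 := (hle x1 y2).trans_eq (M13_G (j := j + 1) x1 y2 (s := 4 * (k : ℝ))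
          (by linarith))
        rw [abs_of_nonpos (by linarith)] at p1 p2 hgxy
        rw [hgxy]
        nlinarith
      · -- x = N - 1
        have hk1 : 1 ≤ k := by
          have h8 : (0 : ℝ) < k := by linarith
          have h9 : (0 : ℤ) < k := by exact_mod_cast h8
          omega
        have hk2 : (1 : ℝ) ≤ k := by exact_mod_cast hk1
        have p1 := (hle x1 y1).trans_eq (M13_G (j := j + 1) x1 y1 (s := 4 * (k : ℝ))
          (by linarith))
        have p2 := (hle x1 y2).trans_eq (M13_G (j := j + 1) x1 y2 (s := 4 * (k : ℝ) - 4)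
          (by linarith))
        rw [abs_of_nonneg (by linarith)] at p1 p2 hgxy
        rw [hgxy]
        nlinarith
    · -- both uncoupled
      have hNx : (x.1 : ℝ) + 1 ≤ N := by exact_mod_cast x.2
      have hx0 : (0 : ℝ) ≤ x.1 := Nat.cast_nonneg _
      subst cx1
      subst cy1
      rcases cx2 with ⟨dx1, dx2, dx3⟩ | ⟨dx1, dx2, dx3⟩
      · rcases cy2 with ⟨dy1, dy2, dy3⟩ | ⟨dy1, dy2, dy3⟩
        · exact absurd (Fin.ext (dx3.trans dy3.symm)) hxy
        · have hN2 : (2 : ℝ) ≤ N := by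
            have h8 : x.1 ≠ y.1 := fun h => hxy (Fin.ext h)
            have h9 : 2 ≤ N := by omega
            exact_mod_cast h9
          have hk3 : 4 * (k : ℝ) = -(2 * N) := by linarith
          have p1 := (hle x1 y1).trans_eq (M13_G (j := j + 1) x1 y1 (s := 4 * (k : ℝ) + 4)
            (by linarith))
          rw [hk3, abs_of_nonpos (by linarith)] at p1 hgxy
          rw [hgxy]
          nlinarith
      · rcases cy2 with ⟨dy1, dy2, dy3⟩ | ⟨dy1, dy2, dy3⟩
        · have hN2 : (2 : ℝ) ≤ N := by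
            have h8 : x.1 ≠ y.1 := fun h => hxy (Fin.ext h)
            have h9 : 2 ≤ N := by omega
            exact_mod_cast h9
          have hk3 : 4 * (k : ℝ) = 2 * N := by linarith
          have p1 := (hle x1 y1).trans_eq (M13_G (j := j + 1) x1 y1 (s := 4 * (k : ℝ) - 4)
            (by linarith))
          rw [hk3, abs_of_nonneg (by linarith)] at p1 hgxy
          rw [hgxy]
          nlinarith
        · exact absurd (Fin.ext (by omega)) hxy

theorem brick_meets {N : ℕ} (hN : Even N) (O : ℕ → Orth N) (hO : ∀ j, (O j).1 = brick N j)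
    (m : ℕ) : Meets m (N * (N + 4)) O := by
  intro j _ x y
  have h1 := pot_meet O (fun j x y => gp j x y) ((N * (N + 4) : ℝ) / 2)
    (fun j x y => (gp_bd j hN x y).1) (fun j x y => (gp_bd j hN x y).2)
    (fun j x y hxy => by rw [hO j]; exact gp_drift hN j x y hxy) (N * (N + 4)) j x y
  have hNpos : 0 < N := lt_of_le_of_lt (Nat.zero_le _) x.2
  have hNr : (0 : ℝ) < N := by exact_mod_cast hNpos
  push_cast at h1
  have h2 : (0 : ℝ) < N * (N + 4) := by positivity
  by_contra h3
  push Not at h3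
  have h4 := mul_lt_mul_of_pos_left h3 h2
  linarith

end Mx
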